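import Pool.Agent.Helper85.Vu.Defs

/-!
# Regions and weights
-/

set_option linter.unusedVariables false

namespace Pool.Agent.Helper85.Vu

open Finset
open scoped Classical

section B0

variable {V : Type} [Fintype V] {D τ η : ℝ} {A C P : V → V → ℝ}

theorem Ker.D_pos (hk : Ker D τ A C P) : 0 < D := lt_of_lt_of_le one_pos hk.one_le

theorem Ker.A_nonneg (hk : Ker D τ A C P) (x y : V) : 0 ≤ A x y := by
  rcases hk.zo x y with h | h <;> rw [h]
  exact zero_le_one

theorem Ker.A_le_one (hk : Ker D τ A C P) (x y : V) : A x y ≤ 1 := by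
  rcases hk.zo x y with h | h <;> rw [h]
  exact zero_le_one

theorem Ker.C_nonneg (hk : Ker D τ A C P) (x y : V) : 0 ≤ C x y :=
  (hk.P_nonneg x y).trans (hk.P_le x y)

theorem Ker.P_le_one (hk : Ker D τ A C P) (x y : V) : P x y ≤ 1 :=
  (hk.P_le x y).trans (hk.C_le x y)

theorem Ker.P_row (hk : Ker D τ A C P) (x : V) : ∑ y, P x y ≤ D / τ ^ 2 := by
  refine le_trans ?_ (hk.P_supp x)
  calc ∑ y, P x y ≤ ∑ y, if P x y ≠ 0 then (1 : ℝ) else 0 := by
        refine Finset.sum_le_sum fun y _ => ?_
        by_cases h : P x y = 0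
        · simp [h]
        · rw [if_pos h]; exact hk.P_le_one x y
    _ = _ := by rw [Finset.sum_boole]

theorem Ker.A_row_card (hk : Ker D τ A C P) (x : V) :
    ((univ.filter (fun y => A x y = 1)).card : ℝ) ≤ D := by
  refine le_trans (le_of_eq ?_) (hk.row x)
  rw [← Finset.sum_boole]
  refine Finset.sum_congr rfl fun y _ => ?_
  rcases hk.zo x y with h | h <;> simp [h]

theorem kap_nonneg' (hη : 0 < η) (j : ℕ) : 0 ≤ kap τ η j := by
  induction j with
  | zero => exact zero_le_one
  | succ j ih =>
    change 0 ≤ kap τ η j * (1 + (1 + 1 / τ ^ 2) / η) + 1 / τ ^ 2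
    positivity

theorem mem_reg_zero {u e : V} : e ∈ reg η D A P u 0 ↔ A u e = 1 := by
  change e ∈ univ.filter (fun w => A u w = 1) ↔ _
  rw [Finset.mem_filter]
  simp

theorem reg_succ (u : V) (j : ℕ) : reg η D A P u (j + 1) =
    reg η D A P u j ∪ univ.filter (fun w => P u w ≠ 0) ∪
      univ.filter (fun e => η * D ≤ ∑ y ∈ reg η D A P u j, (A y e + P y e)) := rfl

/-- B0, regions and weights -/
theorem reg_card {V : Type} [Fintype V] {D τ η : ℝ} {A C P : V → V → ℝ} (hk : Ker D τ A C P)
    (hη : 0 < η) (u : V) (j : ℕ) : ((reg η D A P u j).card : ℝ) ≤ kap τ η j * D := by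
  have hD := hk.D_pos
  have hτ := hk.tau_pos
  induction j with
  | zero =>
    change ((univ.filter (fun y => A u y = 1)).card : ℝ) ≤ 1 * D
    rw [one_mul]
    exact hk.A_row_card u
  | succ j ih =>
    rw [reg_succ]
    have h1 : (((reg η D A P u j ∪ univ.filter (fun w => P u w ≠ 0) ∪
        univ.filter (fun e => η * D ≤ ∑ y ∈ reg η D A P u j, (A y e + P y e))).card : ℕ) : ℝ) ≤
        ((reg η D A P u j).card : ℝ) + ((univ.filter (fun w => P u w ≠ 0)).card : ℝ) +
        ((univ.filter (fun e => η * D ≤ ∑ y ∈ reg η D A P u j, (A y e + P y e))).card : ℝ) := by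
      have h2 := (Finset.card_union_le (reg η D A P u j ∪ univ.filter (fun w => P u w ≠ 0))
        (univ.filter (fun e => η * D ≤ ∑ y ∈ reg η D A P u j, (A y e + P y e))))
      have h3 := Finset.card_union_le (reg η D A P u j) (univ.filter (fun w => P u w ≠ 0))
      exact_mod_cast h2.trans (Nat.add_le_add_right h3 _)
    have h4 : η * D * ((univ.filter (fun e => η * D ≤
        ∑ y ∈ reg η D A P u j, (A y e + P y e))).card : ℝ) ≤
        ((reg η D A P u j).card : ℝ) * (D * (1 + 1 / τ ^ 2)) := by
      calc η * D * ((univ.filter (fun e => η * D ≤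
            ∑ y ∈ reg η D A P u j, (A y e + P y e))).card : ℝ) =
          ∑ e ∈ univ.filter (fun e => η * D ≤ ∑ y ∈ reg η D A P u j, (A y e + P y e)), η * D := by
            rw [Finset.sum_const, nsmul_eq_mul, mul_comm]
        _ ≤ ∑ e ∈ univ.filter (fun e => η * D ≤ ∑ y ∈ reg η D A P u j, (A y e + P y e)),
            ∑ y ∈ reg η D A P u j, (A y e + P y e) :=
            Finset.sum_le_sum fun e he => (Finset.mem_filter.mp he).2
        _ ≤ ∑ e, ∑ y ∈ reg η D A P u j, (A y e + P y e) :=
            Finset.sum_le_sum_of_subset_of_nonneg (Finset.subset_univ _) fun e _ _ =>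
              Finset.sum_nonneg fun y _ => add_nonneg (hk.A_nonneg y e) (hk.P_nonneg y e)
        _ = ∑ y ∈ reg η D A P u j, ∑ e, (A y e + P y e) := Finset.sum_comm
        _ ≤ ∑ y ∈ reg η D A P u j, D * (1 + 1 / τ ^ 2) := by
            refine Finset.sum_le_sum fun y _ => ?_
            rw [Finset.sum_add_distrib]
            have e1 := hk.row y
            have e2 := hk.P_row y
            have e3 : D * (1 + 1 / τ ^ 2) = D + D / τ ^ 2 := by ring
            rw [e3]
            exact add_le_add e1 e2
        _ = _ := by rw [Finset.sum_const, nsmul_eq_mul]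
    have h5 : ((univ.filter (fun e => η * D ≤
        ∑ y ∈ reg η D A P u j, (A y e + P y e))).card : ℝ) ≤
        ((reg η D A P u j).card : ℝ) * ((1 + 1 / τ ^ 2) / η) := by
      have h6 : (0 : ℝ) < η * D := mul_pos hη hD
      rw [← mul_le_mul_iff_right₀ h6]
      refine h4.trans (le_of_eq ?_)
      field_simp
    have h7 := hk.P_supp u
    have h8 : ((reg η D A P u j).card : ℝ) * (1 + (1 + 1 / τ ^ 2) / η) ≤
        kap τ η j * D * (1 + (1 + 1 / τ ^ 2) / η) :=
      mul_le_mul_of_nonneg_right ih (by positivity)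
    change _ ≤ (kap τ η j * (1 + (1 + 1 / τ ^ 2) / η) + 1 / τ ^ 2) * D
    calc _ ≤ _ := h1
      _ ≤ ((reg η D A P u j).card : ℝ) + D / τ ^ 2 +
          ((reg η D A P u j).card : ℝ) * ((1 + 1 / τ ^ 2) / η) :=
          add_le_add (add_le_add le_rfl h7) h5
      _ = ((reg η D A P u j).card : ℝ) * (1 + (1 + 1 / τ ^ 2) / η) + D / τ ^ 2 := by ring
      _ ≤ kap τ η j * D * (1 + (1 + 1 / τ ^ 2) / η) + D / τ ^ 2 := add_le_add h8 le_rfl
      _ = _ := by ring

theorem reg_card' {V : Type} [Fintype V] {D τ η : ℝ} {A C P : V → V → ℝ} (hk : Ker D τ A C P)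
    (hη : 0 < η) (x : V) (j : ℕ) :
    ((univ.filter (fun u => x ∈ reg η D A P u j)).card : ℝ) ≤ kap τ η j * D := by
  have hD := hk.D_pos
  have hτ := hk.tau_pos
  induction j generalizing x with
  | zero =>
    change ((univ.filter (fun u => x ∈ univ.filter (fun y => A u y = 1))).card : ℝ) ≤ 1 * D
    rw [one_mul]
    refine le_trans (le_of_eq ?_) (hk.A_row_card x)
    congr 2
    ext u
    simp only [Finset.mem_filter, Finset.mem_univ, true_and]
    rw [hk.symm u x]
  | succ j ih =>
    have hsub : (univ.filter (fun u => x ∈ reg η D A P u (j + 1))) ⊆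
        univ.filter (fun u => x ∈ reg η D A P u j) ∪ univ.filter (fun u => P x u ≠ 0) ∪
        univ.filter (fun u => η * D ≤ ∑ y ∈ reg η D A P u j, (A y x + P y x)) := by
      intro u hu
      rw [Finset.mem_filter, reg_succ, Finset.mem_union, Finset.mem_union] at hu
      rcases hu.2 with (h | h) | h
      · exact Finset.mem_union_left _ (Finset.mem_union_left _
          (Finset.mem_filter.mpr ⟨Finset.mem_univ _, h⟩))
      · refine Finset.mem_union_left _ (Finset.mem_union_right _
          (Finset.mem_filter.mpr ⟨Finset.mem_univ _, ?_⟩))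
        rw [hk.P_symm x u]
        exact (Finset.mem_filter.mp h).2
      · exact Finset.mem_union_right _
          (Finset.mem_filter.mpr ⟨Finset.mem_univ _, (Finset.mem_filter.mp h).2⟩)
    have h1 : ((univ.filter (fun u => x ∈ reg η D A P u (j + 1))).card : ℝ) ≤
        ((univ.filter (fun u => x ∈ reg η D A P u j)).card : ℝ) +
        ((univ.filter (fun u => P x u ≠ 0)).card : ℝ) +
        ((univ.filter (fun u => η * D ≤ ∑ y ∈ reg η D A P u j, (A y x + P y x))).card : ℝ) := by
      have h0 := Finset.card_le_card hsub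
      have h2 := Finset.card_union_le
        (univ.filter (fun u => x ∈ reg η D A P u j) ∪ univ.filter (fun u => P x u ≠ 0))
        (univ.filter (fun u => η * D ≤ ∑ y ∈ reg η D A P u j, (A y x + P y x)))
      have h3 := Finset.card_union_le (univ.filter (fun u => x ∈ reg η D A P u j))
        (univ.filter (fun u => P x u ≠ 0))
      exact_mod_cast h0.trans (h2.trans (Nat.add_le_add_right h3 _))
    have h4 : η * D * ((univ.filter (fun u => η * D ≤
        ∑ y ∈ reg η D A P u j, (A y x + P y x))).card : ℝ) ≤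
        kap τ η j * D * (D * (1 + 1 / τ ^ 2)) := by
      calc η * D * ((univ.filter (fun u => η * D ≤
            ∑ y ∈ reg η D A P u j, (A y x + P y x))).card : ℝ) =
          ∑ u ∈ univ.filter (fun u => η * D ≤ ∑ y ∈ reg η D A P u j, (A y x + P y x)),
            η * D := by
            rw [Finset.sum_const, nsmul_eq_mul, mul_comm]
        _ ≤ ∑ u ∈ univ.filter (fun u => η * D ≤ ∑ y ∈ reg η D A P u j, (A y x + P y x)),
            ∑ y ∈ reg η D A P u j, (A y x + P y x) :=
            Finset.sum_le_sum fun e he => (Finset.mem_filter.mp he).2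
        _ ≤ ∑ u, ∑ y ∈ reg η D A P u j, (A y x + P y x) :=
            Finset.sum_le_sum_of_subset_of_nonneg (Finset.subset_univ _) fun e _ _ =>
              Finset.sum_nonneg fun y _ => add_nonneg (hk.A_nonneg y x) (hk.P_nonneg y x)
        _ = ∑ u, ∑ y, if y ∈ reg η D A P u j then (A y x + P y x) else 0 := by
            refine Finset.sum_congr rfl fun u _ => ?_
            rw [Finset.sum_ite_mem, Finset.univ_inter]
        _ = ∑ y, ∑ u, if y ∈ reg η D A P u j then (A y x + P y x) else 0 := Finset.sum_comm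
        _ = ∑ y, ((univ.filter (fun u => y ∈ reg η D A P u j)).card : ℝ) *
            (A y x + P y x) := by
            refine Finset.sum_congr rfl fun y _ => ?_
            rw [← Finset.sum_filter, Finset.sum_const, nsmul_eq_mul]
        _ ≤ ∑ y, kap τ η j * D * (A y x + P y x) :=
            Finset.sum_le_sum fun y _ => mul_le_mul_of_nonneg_right (ih y)
              (add_nonneg (hk.A_nonneg y x) (hk.P_nonneg y x))
        _ = kap τ η j * D * (∑ y, A x y + ∑ y, P x y) := by
            rw [← Finset.mul_sum, Finset.sum_add_distrib]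
            congr 2
            · exact Finset.sum_congr rfl fun y _ => hk.symm y x
            · exact Finset.sum_congr rfl fun y _ => hk.P_symm y x
        _ ≤ kap τ η j * D * (D * (1 + 1 / τ ^ 2)) := by
            refine mul_le_mul_of_nonneg_left ?_
              (mul_nonneg (kap_nonneg' hη j) hD.le)
            have e1 := hk.row x
            have e2 := hk.P_row x
            have e3 : D * (1 + 1 / τ ^ 2) = D + D / τ ^ 2 := by ring
            rw [e3]
            exact add_le_add e1 e2
    have h5 : ((univ.filter (fun u => η * D ≤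
        ∑ y ∈ reg η D A P u j, (A y x + P y x))).card : ℝ) ≤
        kap τ η j * D * ((1 + 1 / τ ^ 2) / η) := by
      have h6 : (0 : ℝ) < η * D := mul_pos hη hD
      rw [← mul_le_mul_iff_right₀ h6]
      refine h4.trans (le_of_eq ?_)
      field_simp
    have h7 := hk.P_supp x
    change _ ≤ (kap τ η j * (1 + (1 + 1 / τ ^ 2) / η) + 1 / τ ^ 2) * D
    calc _ ≤ _ := h1
      _ ≤ kap τ η j * D + D / τ ^ 2 + kap τ η j * D * ((1 + 1 / τ ^ 2) / η) :=
          add_le_add (add_le_add (ih x) h7) h5
      _ = _ := by ring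

theorem reg_mono {V : Type} [Fintype V] {D η : ℝ} {A P : V → V → ℝ} (u : V) {i j : ℕ}
    (hij : i ≤ j) : reg η D A P u i ⊆ reg η D A P u j := by
  induction hij with
  | refl => exact Finset.Subset.refl _
  | step _ ih =>
    refine ih.trans ?_
    rw [reg_succ]
    exact Finset.subset_union_left.trans Finset.subset_union_left

theorem reg_out {V : Type} [Fintype V] {D τ η : ℝ} {A C P : V → V → ℝ} (hk : Ker D τ A C P)
    (u : V) (j : ℕ) (e : V) (he : e ∉ reg η D A P u (j + 1)) :
    dd A P u e = 0 ∧ ∑ y ∈ reg η D A P u j, (A y e + P y e) ≤ η * D := by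
  have h0 : e ∉ reg η D A P u 0 := fun h => he (reg_mono u (Nat.zero_le _) h)
  have h1 : A u e = 0 := by
    rcases hk.zo u e with h | h
    · exact h
    · exact absurd (mem_reg_zero.mpr h) h0
  rw [reg_succ, Finset.mem_union, Finset.mem_union] at he
  push Not at he
  have h2 : P u e = 0 := by
    by_contra h
    exact he.1.2 (Finset.mem_filter.mpr ⟨Finset.mem_univ _, h⟩)
  refine ⟨by unfold dd; rw [h1, h2]; ring, ?_⟩
  by_contra h
  push Not at h
  exact he.2 (Finset.mem_filter.mpr ⟨Finset.mem_univ _, h.le⟩)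

theorem om_succ_apply (u : V) (j : ℕ) (x : V) : om η D A C P u (j + 1) x =
    om η D A C P u j x +
      if x ∈ reg η D A P u j then (∑ y, om η D A C P u j y * C y x ^ 2) / D else 0 := rfl

theorem om_nonneg {V : Type} [Fintype V] {D τ η : ℝ} {A C P : V → V → ℝ} (hk : Ker D τ A C P)
    (u : V) (j : ℕ) (x : V) : 0 ≤ om η D A C P u j x := by
  have hD := hk.D_pos
  induction j generalizing x with
  | zero => exact add_nonneg (hk.A_nonneg u x) (sq_nonneg _)
  | succ j ih =>
    rw [om_succ_apply]
    refine add_nonneg (ih x) ?_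
    split
    · exact div_nonneg (Finset.sum_nonneg fun y _ => mul_nonneg (ih y) (sq_nonneg _)) hD.le
    · exact le_rfl

theorem om_le {V : Type} [Fintype V] {D τ η : ℝ} {A C P : V → V → ℝ} (hk : Ker D τ A C P)
    (u : V) (j : ℕ) (x : V) : om η D A C P u j x ≤ 2 ^ (j + 1) := by
  have hD := hk.D_pos
  induction j generalizing x with
  | zero =>
    change A u x + P u x ^ 2 ≤ 2 ^ (0 + 1)
    have h1 := hk.A_le_one u x
    have h2 : P u x ^ 2 ≤ 1 := pow_le_one₀ (hk.P_nonneg u x) (hk.P_le_one u x)
    norm_num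
    linarith
  | succ j ih =>
    rw [om_succ_apply]
    have h1 : (if x ∈ reg η D A P u j then
        (∑ y, om η D A C P u j y * C y x ^ 2) / D else 0) ≤ 2 ^ (j + 1) := by
      split
      · rw [div_le_iff₀ hD]
        calc ∑ y, om η D A C P u j y * C y x ^ 2 ≤ ∑ y, 2 ^ (j + 1) * C x y ^ 2 := by
              refine Finset.sum_le_sum fun y _ => ?_
              rw [hk.C_symm y x]
              exact mul_le_mul_of_nonneg_right (ih y) (sq_nonneg _)
          _ = 2 ^ (j + 1) * ∑ y, C x y ^ 2 := by rw [Finset.mul_sum]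
          _ ≤ 2 ^ (j + 1) * D := mul_le_mul_of_nonneg_left (hk.C_row x) (by positivity)
      · positivity
    calc om η D A C P u j x + _ ≤ 2 ^ (j + 1) + 2 ^ (j + 1) := add_le_add (ih x) h1
      _ = 2 ^ (j + 1 + 1) := by ring

theorem om_sum {V : Type} [Fintype V] {D τ η : ℝ} {A C P : V → V → ℝ} (hk : Ker D τ A C P)
    (u : V) (j : ℕ) : ∑ x, om η D A C P u j x ≤ 2 ^ (j + 1) * D := by
  have hD := hk.D_pos
  induction j with
  | zero =>
    change ∑ x, (A u x + P u x ^ 2) ≤ 2 ^ (0 + 1) * D
    rw [Finset.sum_add_distrib]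
    have h1 := hk.row u
    have h2 : ∑ x, P u x ^ 2 ≤ D := by
      refine le_trans (Finset.sum_le_sum fun x _ => ?_) (hk.C_row u)
      exact pow_le_pow_left₀ (hk.P_nonneg u x) (hk.P_le u x) 2
    norm_num
    linarith
  | succ j ih =>
    simp only [om_succ_apply]
    rw [Finset.sum_add_distrib]
    have h1 : ∑ x, (if x ∈ reg η D A P u j then
        (∑ y, om η D A C P u j y * C y x ^ 2) / D else 0) ≤ ∑ x, om η D A C P u j x := by
      calc ∑ x, (if x ∈ reg η D A P u j then
            (∑ y, om η D A C P u j y * C y x ^ 2) / D else 0) ≤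
          ∑ x, (∑ y, om η D A C P u j y * C y x ^ 2) / D := by
            refine Finset.sum_le_sum fun x _ => ?_
            split
            · exact le_rfl
            · exact div_nonneg (Finset.sum_nonneg fun y _ =>
                mul_nonneg (om_nonneg hk u j y) (sq_nonneg _)) hD.le
        _ = (∑ y, om η D A C P u j y * ∑ x, C y x ^ 2) / D := by
            rw [← Finset.sum_div, Finset.sum_comm]
            congr 1
            exact Finset.sum_congr rfl fun y _ => by rw [Finset.mul_sum]
        _ ≤ (∑ y, om η D A C P u j y * D) / D := by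
            refine div_le_div_of_nonneg_right ?_ hD.le
            exact Finset.sum_le_sum fun y _ =>
              mul_le_mul_of_nonneg_left (hk.C_row y) (om_nonneg hk u j y)
        _ = ∑ x, om η D A C P u j x := by
            rw [← Finset.sum_mul]; field_simp
    calc _ ≤ ∑ x, om η D A C P u j x + ∑ x, om η D A C P u j x := add_le_add le_rfl h1
      _ ≤ 2 ^ (j + 1) * D + 2 ^ (j + 1) * D := add_le_add ih ih
      _ = _ := by ring

theorem om_supp {V : Type} [Fintype V] {D τ η : ℝ} {A C P : V → V → ℝ} (hk : Ker D τ A C P)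
    (u : V) (j : ℕ) (x : V) (hx : x ∉ reg η D A P u (j + 1)) : om η D A C P u j x = 0 := by
  induction j with
  | zero =>
    have h0 : x ∉ reg η D A P u 0 := fun h => hx (reg_mono u (Nat.zero_le _) h)
    have h1 : A u x = 0 := by
      rcases hk.zo u x with h | h
      · exact h
      · exact absurd (mem_reg_zero.mpr h) h0
    rw [reg_succ, Finset.mem_union, Finset.mem_union] at hx
    push Not at hx
    have h2 : P u x = 0 := by
      by_contra h
      exact hx.1.2 (Finset.mem_filter.mpr ⟨Finset.mem_univ _, h⟩)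
    change A u x + P u x ^ 2 = 0
    rw [h1, h2]; ring
  | succ j ih =>
    have h1 : x ∉ reg η D A P u (j + 1) := fun h => hx (reg_mono u (Nat.le_succ _) h)
    have h2 : x ∉ reg η D A P u j := fun h => h1 (reg_mono u (Nat.le_succ _) h)
    rw [om_succ_apply, ih h1, if_neg h2, add_zero]

theorem om_succ {V : Type} [Fintype V] {D τ η : ℝ} {A C P : V → V → ℝ} (hk : Ker D τ A C P)
    (u : V) (j : ℕ) (v : V → ℝ) (hv : ∀ x, 0 ≤ v x) :
    ∑ x, om η D A C P u j x * ((∑ y ∈ reg η D A P u j, C x y ^ 2 * v y) / D) ≤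
      ∑ y, om η D A C P u (j + 1) y * v y := by
  have h1 : ∑ x, om η D A C P u j x * ((∑ y ∈ reg η D A P u j, C x y ^ 2 * v y) / D) =
      ∑ y, (if y ∈ reg η D A P u j then (∑ x, om η D A C P u j x * C x y ^ 2) / D else 0) *
        v y := by
    calc ∑ x, om η D A C P u j x * ((∑ y ∈ reg η D A P u j, C x y ^ 2 * v y) / D) =
        ∑ x, ∑ y ∈ reg η D A P u j, om η D A C P u j x * C x y ^ 2 / D * v y := by
          refine Finset.sum_congr rfl fun x _ => ?_
          rw [Finset.sum_div, Finset.mul_sum]
          exact Finset.sum_congr rfl fun y _ => by ring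
      _ = ∑ y ∈ reg η D A P u j, ∑ x, om η D A C P u j x * C x y ^ 2 / D * v y :=
          Finset.sum_comm
      _ = ∑ y ∈ reg η D A P u j, (∑ x, om η D A C P u j x * C x y ^ 2) / D * v y := by
          refine Finset.sum_congr rfl fun y _ => ?_
          rw [Finset.sum_div, Finset.sum_mul]
      _ = ∑ y, if y ∈ reg η D A P u j then
            (∑ x, om η D A C P u j x * C x y ^ 2) / D * v y else 0 := by
          rw [Finset.sum_ite_mem, Finset.univ_inter]
      _ = _ := by
          refine Finset.sum_congr rfl fun y _ => ?_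
          split
          · rfl
          · rw [zero_mul]
  rw [h1]
  refine Finset.sum_le_sum fun y _ => mul_le_mul_of_nonneg_right ?_ (hv y)
  rw [om_succ_apply]
  exact le_add_of_nonneg_left (om_nonneg hk u j y)

end B0

end Pool.Agent.Helper85.Vu
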