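import Pool.Agent.Helper85.Vu.Defs

/-!
# Spectral facts for the smoothed adjacency matrix
-/

set_option linter.unusedVariables false

namespace Pool.Agent.Helper85.Vu

open Finset
open scoped Classical

/-- orthogonal diagonalization -/
theorem Spec_exists_diag {V : Type} [Fintype V] {M : Matrix V V ℝ} (hM : M.IsHermitian) :
    ∃ (U : Matrix V V ℝ) (lam : V → ℝ), U.transpose * U = 1 ∧ U * U.transpose = 1 ∧
      M = U * Matrix.diagonal lam * U.transpose := by
  have hst : star (hM.eigenvectorUnitary : Matrix V V ℝ) =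
      (hM.eigenvectorUnitary : Matrix V V ℝ).transpose := by
    rw [Matrix.star_eq_conjTranspose, Matrix.conjTranspose_eq_transpose_of_trivial]
  refine ⟨(hM.eigenvectorUnitary : Matrix V V ℝ), hM.eigenvalues, ?_, ?_, ?_⟩
  · rw [← hst]
    exact Unitary.coe_star_mul_self hM.eigenvectorUnitary
  · rw [← hst]
    exact Unitary.coe_mul_star_self hM.eigenvectorUnitary
  · have h := hM.spectral_theorem
    rw [Unitary.conjStarAlgAut_apply, hst] at h
    exact h

/-- functional calculus -/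
noncomputable def Spec {V : Type} [Fintype V] (U : Matrix V V ℝ) (lam : V → ℝ) (φ : ℝ → ℝ) :
    Matrix V V ℝ :=
  U * Matrix.diagonal (fun i => φ (lam i)) * U.transpose

section SpecSec

variable {V : Type} [Fintype V] {U : Matrix V V ℝ} {lam : V → ℝ}

theorem Spec_one (h2 : U * U.transpose = 1) : Spec U lam (fun _ => 1) = 1 := by
  unfold Spec
  rw [Matrix.diagonal_one, mul_one, h2]

theorem Spec_mul (h1 : U.transpose * U = 1) (φ ψ : ℝ → ℝ) :
    Spec U lam φ * Spec U lam ψ = Spec U lam (fun t => φ t * ψ t) := by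
  unfold Spec
  calc U * Matrix.diagonal (fun i => φ (lam i)) * U.transpose *
        (U * Matrix.diagonal (fun i => ψ (lam i)) * U.transpose) =
      U * Matrix.diagonal (fun i => φ (lam i)) * (U.transpose * U) *
        Matrix.diagonal (fun i => ψ (lam i)) * U.transpose := by
        simp only [Matrix.mul_assoc]
    _ = U * Matrix.diagonal (fun i => φ (lam i) * ψ (lam i)) * U.transpose := by
        rw [h1, Matrix.mul_one, Matrix.mul_assoc U, Matrix.diagonal_mul_diagonal]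

theorem Spec_sub (φ ψ : ℝ → ℝ) :
    Spec U lam φ - Spec U lam ψ = Spec U lam (fun t => φ t - ψ t) := by
  unfold Spec
  rw [← Matrix.sub_mul, ← Matrix.mul_sub, Matrix.diagonal_sub]

theorem Spec_smul (c : ℝ) (φ : ℝ → ℝ) :
    c • Spec U lam φ = Spec U lam (fun t => c * φ t) := by
  unfold Spec
  rw [← Matrix.smul_mul, ← Matrix.mul_smul, ← Matrix.diagonal_smul]
  rfl

theorem Spec_pow (h1 : U.transpose * U = 1) (h2 : U * U.transpose = 1) (φ : ℝ → ℝ) (k : ℕ) :
    Spec U lam φ ^ k = Spec U lam (fun t => φ t ^ k) := by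
  induction k with
  | zero => simp only [pow_zero]; exact (Spec_one h2).symm
  | succ k ih => rw [pow_succ, ih, Spec_mul h1]; simp only [pow_succ]

theorem Spec_apply (φ : ℝ → ℝ) (x y : V) :
    Spec U lam φ x y = ∑ i, U x i * φ (lam i) * U y i := by
  unfold Spec
  rw [Matrix.mul_apply]
  refine Finset.sum_congr rfl fun i _ => ?_
  rw [Matrix.mul_diagonal, Matrix.transpose_apply]

/-- `U` is an isometry. -/
theorem Spec_iso1 (h1 : U.transpose * U = 1) (c : V → ℝ) :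
    ∑ x, (∑ i, U x i * c i) ^ 2 = ∑ i, c i ^ 2 := by
  have h : ∀ i j, ∑ x, U x i * U x j = if i = j then 1 else 0 := by
    intro i j
    have h3 := congrFun (congrFun h1 i) j
    rw [Matrix.mul_apply, Matrix.one_apply] at h3
    simpa only [Matrix.transpose_apply] using h3
  calc ∑ x, (∑ i, U x i * c i) ^ 2 = ∑ x, ∑ i, ∑ j, (U x i * c i) * (U x j * c j) := by
        refine Finset.sum_congr rfl fun x _ => ?_
        rw [sq, Finset.sum_mul_sum]
    _ = ∑ i, ∑ j, c i * c j * ∑ x, U x i * U x j := by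
        rw [Finset.sum_comm]
        refine Finset.sum_congr rfl fun i _ => ?_
        rw [Finset.sum_comm]
        refine Finset.sum_congr rfl fun j _ => ?_
        rw [Finset.mul_sum]
        exact Finset.sum_congr rfl fun x _ => by ring
    _ = ∑ i, c i ^ 2 := by
        refine Finset.sum_congr rfl fun i _ => ?_
        rw [Finset.sum_eq_single i]
        · rw [h, if_pos rfl]; ring
        · intro j _ hj
          rw [h, if_neg (Ne.symm hj), mul_zero]
        · intro h; exact absurd (Finset.mem_univ _) h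

theorem Spec_iso2 (h2 : U * U.transpose = 1) (c : V → ℝ) :
    ∑ i, (∑ x, U x i * c x) ^ 2 = ∑ x, c x ^ 2 := by
  have h3 : U.transpose.transpose * U.transpose = 1 := by
    rw [Matrix.transpose_transpose]; exact h2
  have := Spec_iso1 h3 c
  simpa only [Matrix.transpose_apply] using this

theorem Spec_mulVec (φ : ℝ → ℝ) (v : V → ℝ) (x : V) :
    ∑ y, Spec U lam φ x y * v y = ∑ i, U x i * (φ (lam i) * ∑ y, U y i * v y) := by
  simp only [Spec_apply, Finset.sum_mul, Finset.mul_sum]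
  rw [Finset.sum_comm]
  exact Finset.sum_congr rfl fun i _ => Finset.sum_congr rfl fun y _ => by ring

theorem Spec_nrm (h1 : U.transpose * U = 1) (φ : ℝ → ℝ) (v : V → ℝ) :
    ∑ x, (∑ y, Spec U lam φ x y * v y) ^ 2 = ∑ i, φ (lam i) ^ 2 * (∑ y, U y i * v y) ^ 2 := by
  simp only [Spec_mulVec]
  rw [Spec_iso1 h1]
  exact Finset.sum_congr rfl fun i _ => by ring

theorem Spec_hs (h1 : U.transpose * U = 1) (h2 : U * U.transpose = 1) (φ : ℝ → ℝ) :
    ∑ x, ∑ y, Spec U lam φ x y ^ 2 = ∑ i, φ (lam i) ^ 2 := by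
  have h3 : ∀ x, ∑ y, Spec U lam φ x y ^ 2 = ∑ i, (U x i) ^ 2 * φ (lam i) ^ 2 := by
    intro x
    have h4 : ∀ y, Spec U lam φ x y = ∑ i, U y i * (U x i * φ (lam i)) := by
      intro y
      rw [Spec_apply]
      exact Finset.sum_congr rfl fun i _ => by ring
    simp only [h4]
    rw [Spec_iso1 h1]
    exact Finset.sum_congr rfl fun i _ => by ring
  simp only [h3]
  rw [Finset.sum_comm]
  refine Finset.sum_congr rfl fun i _ => ?_
  rw [← Finset.sum_mul]
  have h5 : ∑ x, U x i ^ 2 = 1 := by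
    have h3 := congrFun (congrFun h1 i) i
    rw [Matrix.mul_apply, Matrix.one_apply, if_pos rfl] at h3
    simp only [Matrix.transpose_apply] at h3
    rw [← h3]
    exact Finset.sum_congr rfl fun x _ => by ring
  rw [h5, one_mul]

theorem Spec_bilin (φ : ℝ → ℝ) (h b : V → ℝ) :
    ∑ x, ∑ y, h x * Spec U lam φ x y * b y =
      ∑ i, φ (lam i) * ((∑ x, U x i * h x) * ∑ y, U y i * b y) := by
  have h3 : ∀ x, ∑ y, h x * Spec U lam φ x y * b y =
      ∑ i, φ (lam i) * (U x i * h x) * ∑ y, U y i * b y := by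
    intro x
    have h4 : ∀ y, h x * Spec U lam φ x y * b y = h x * (Spec U lam φ x y * b y) := fun y => by ring
    simp only [h4]
    rw [← Finset.mul_sum, Spec_mulVec, Finset.mul_sum]
    exact Finset.sum_congr rfl fun i _ => by ring
  simp only [h3]
  rw [Finset.sum_comm]
  refine Finset.sum_congr rfl fun i _ => ?_
  rw [← Finset.sum_mul, ← Finset.mul_sum]
  ring

theorem Spec_opLe (h2 : U * U.transpose = 1) (φ : ℝ → ℝ) (μ : ℝ) (hμ : ∀ i, |φ (lam i)| ≤ μ)
    (hμ0 : 0 ≤ μ) : OpLe (fun x y => Spec U lam φ x y) μ := by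
  intro h b
  rw [Spec_bilin]
  have e1 : nrm h = Real.sqrt (∑ i, |∑ x, U x i * h x| ^ 2) := by
    unfold nrm
    simp only [sq_abs]
    rw [Spec_iso2 h2]
  have e2 : nrm b = Real.sqrt (∑ i, |∑ x, U x i * b x| ^ 2) := by
    unfold nrm
    simp only [sq_abs]
    rw [Spec_iso2 h2]
  calc |∑ i, φ (lam i) * ((∑ x, U x i * h x) * ∑ y, U y i * b y)| ≤
      ∑ i, |φ (lam i) * ((∑ x, U x i * h x) * ∑ y, U y i * b y)| :=
        Finset.abs_sum_le_sum_abs _ _
    _ ≤ ∑ i, μ * (|∑ x, U x i * h x| * |∑ y, U y i * b y|) := by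
        refine Finset.sum_le_sum fun i _ => ?_
        rw [abs_mul, abs_mul]
        exact mul_le_mul_of_nonneg_right (hμ i) (by positivity)
    _ = μ * ∑ i, |∑ x, U x i * h x| * |∑ y, U y i * b y| := by rw [Finset.mul_sum]
    _ ≤ μ * (Real.sqrt (∑ i, |∑ x, U x i * h x| ^ 2) *
          Real.sqrt (∑ i, |∑ x, U x i * b x| ^ 2)) :=
        mul_le_mul_of_nonneg_left (Real.sum_mul_le_sqrt_mul_sqrt _ _ _) hμ0
    _ = μ * nrm h * nrm b := by rw [e1, e2, mul_assoc]

end SpecSec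

/-- an elementary inequality -/
theorem Spec_abs_mul_pow_le (s : ℝ) (hs : s ^ 2 ≤ 1) (m : ℕ) (hm : 1 ≤ m) :
    |s * (1 - s ^ 2) ^ m| ≤ 1 / Real.sqrt m := by
  have hm' : (1 : ℝ) ≤ m := by exact_mod_cast hm
  have hm0 : (0 : ℝ) < m := by linarith
  have h0 : 0 ≤ 1 - s ^ 2 := by linarith
  have hs0 : 0 ≤ s ^ 2 := sq_nonneg s
  have h1 : (s * (1 - s ^ 2) ^ m) ^ 2 * m ≤ 1 := by
    have h2 : (1 - s ^ 2) ^ (2 * m) * (1 + s ^ 2) ^ (2 * m) ≤ 1 := by
      rw [← mul_pow]
      refine pow_le_one₀ (mul_nonneg h0 (by linarith)) ?_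
      nlinarith
    have h3 : 1 + (2 * m : ℕ) * s ^ 2 ≤ (1 + s ^ 2) ^ (2 * m) :=
      one_add_mul_le_pow (by linarith) _
    have h4 : 0 ≤ (1 - s ^ 2) ^ (2 * m) := pow_nonneg h0 _
    have h5 : (1 - s ^ 2) ^ (2 * m) * (m * s ^ 2) ≤ 1 := by
      have h6 : (m : ℝ) * s ^ 2 ≤ 1 + (2 * m : ℕ) * s ^ 2 := by
        push_cast
        nlinarith
      calc (1 - s ^ 2) ^ (2 * m) * (m * s ^ 2) ≤
          (1 - s ^ 2) ^ (2 * m) * (1 + s ^ 2) ^ (2 * m) :=
            mul_le_mul_of_nonneg_left (h6.trans h3) h4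
        _ ≤ 1 := h2
    calc (s * (1 - s ^ 2) ^ m) ^ 2 * m = (1 - s ^ 2) ^ (2 * m) * (m * s ^ 2) := by
          rw [mul_pow, ← pow_mul, mul_comm m 2]; ring
      _ ≤ 1 := h5
  rw [← Real.sqrt_sq_eq_abs, le_div_iff₀ (Real.sqrt_pos.mpr hm0), ← Real.sqrt_mul (sq_nonneg _)]
  exact Real.sqrt_le_one.mpr h1

/-- A1 -/
theorem spectral {V : Type} [Fintype V] {D : ℝ} {A : V → V → ℝ} (hA : Adj D A) :
    (∀ m : ℕ, 1 ≤ m → OpLe (fun x y => A x y - Wm D A m x y) (D / Real.sqrt m)) ∧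
    (∀ (m : ℕ) (x y : V), Wm D A m x y = Wm D A m y x) ∧
    (∀ (m : ℕ) (v : V → ℝ),
      nrm (fun x => ∑ y, Wm D A m x y * v y) ≤ nrm (fun x => ∑ y, A x y * v y)) ∧
    (∀ (m : ℕ) (v : V → ℝ),
      nrm (fun x => ∑ y, (A x y - Wm D A m x y) * v y) ≤ nrm (fun x => ∑ y, A x y * v y)) ∧
    (∀ m m' : ℕ, m ≤ m' → ∑ x, ∑ y, (Wm D A m' x y - Wm D A m x y) ^ 2 ≤
      ∑ x, ∑ y, Wm D A m' x y ^ 2 - ∑ x, ∑ y, Wm D A m x y ^ 2) := by
  have hD : (0 : ℝ) < D := lt_of_lt_of_le one_pos hA.one_le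
  have hD2 : (0 : ℝ) < D ^ 2 := by positivity
  have hH : (Matrix.of A).IsHermitian := by
    ext x y
    rw [Matrix.conjTranspose_apply, Matrix.of_apply, Matrix.of_apply, star_trivial]
    exact hA.symm y x
  obtain ⟨U, lam, h1, h2, h3⟩ := Spec_exists_diag hH
  have hM : Matrix.of A = Spec U lam (fun t => t) := h3
  have hA' : ∀ x y, A x y = Spec U lam (fun t => t) x y := by
    intro x y
    rw [← hM]; rfl
  -- the eigenvalues are bounded
  have hlam : ∀ i, |lam i| ≤ D := by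
    intro i
    have hAU : ∀ x, ∑ y, A x y * U y i = U x i * lam i := by
      intro x
      have h4 : Matrix.of A * U = U * Matrix.diagonal lam := by
        calc Matrix.of A * U = U * Matrix.diagonal lam * (U.transpose * U) := by
              rw [h3]; simp only [Matrix.mul_assoc]
          _ = _ := by rw [h1, Matrix.mul_one]
      have h5 := congrFun (congrFun h4 x) i
      rw [Matrix.mul_apply, Matrix.mul_diagonal] at h5
      exact h5
    have hcol : ∑ x, U x i * U x i = 1 := by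
      have h3 := congrFun (congrFun h1 i) i
      rw [Matrix.mul_apply, Matrix.one_apply, if_pos rfl] at h3
      simpa only [Matrix.transpose_apply] using h3
    obtain ⟨x₀, -, hx₀⟩ := Finset.exists_max_image (univ : Finset V) (fun x => |U x i|)
      ⟨i, Finset.mem_univ _⟩
    have hpos : 0 < |U x₀ i| := by
      rcases (abs_nonneg (U x₀ i)).lt_or_eq with h | h
      · exact h
      · exfalso
        have h6 : ∀ x, U x i = 0 := by
          intro x
          have := hx₀ x (Finset.mem_univ _)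
          rw [← h] at this
          exact abs_eq_zero.mp (le_antisymm this (abs_nonneg _))
        simp [h6] at hcol
    have h7 : |U x₀ i| * |lam i| ≤ |U x₀ i| * D := by
      rw [← abs_mul, ← hAU x₀]
      calc |∑ y, A x₀ y * U y i| ≤ ∑ y, |A x₀ y * U y i| := Finset.abs_sum_le_sum_abs _ _
        _ ≤ ∑ y, A x₀ y * |U x₀ i| := by
            refine Finset.sum_le_sum fun y _ => ?_
            have h8 : 0 ≤ A x₀ y := by
              rcases hA.zo x₀ y with h | h <;> rw [h]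
              exact zero_le_one
            rw [abs_mul, abs_of_nonneg h8]
            exact mul_le_mul_of_nonneg_left (hx₀ y (Finset.mem_univ _)) h8
        _ = (∑ y, A x₀ y) * |U x₀ i| := by rw [Finset.sum_mul]
        _ ≤ D * |U x₀ i| := mul_le_mul_of_nonneg_right (hA.row x₀) (abs_nonneg _)
        _ = |U x₀ i| * D := mul_comm _ _
    exact le_of_mul_le_mul_left h7 hpos
  have hlam2 : ∀ i, (D ^ 2)⁻¹ * lam i ^ 2 ≤ 1 := by
    intro i
    rw [inv_mul_le_iff₀ hD2, mul_one]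
    exact sq_le_sq' (by linarith [neg_abs_le (lam i), hlam i]) ((le_abs_self _).trans (hlam i))
  have hlam0 : ∀ i, 0 ≤ (D ^ 2)⁻¹ * lam i ^ 2 := fun i => by positivity
  -- the smoothed matrix
  have hW : ∀ m, Wm D A m = Spec U lam (fun t => t * (1 - (1 - (D ^ 2)⁻¹ * t ^ 2) ^ m)) := by
    intro m
    unfold Wm
    rw [hM, Spec_pow h1 h2, Spec_smul, ← Spec_one (lam := lam) h2, Spec_sub, Spec_pow h1 h2, Spec_sub,
      Spec_mul h1]
  have hq0 : ∀ (m : ℕ) i, 0 ≤ (1 - (D ^ 2)⁻¹ * lam i ^ 2) ^ m := fun m i =>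
    pow_nonneg (by linarith [hlam2 i]) m
  have hq1 : ∀ (m : ℕ) i, (1 - (D ^ 2)⁻¹ * lam i ^ 2) ^ m ≤ 1 := fun m i =>
    pow_le_one₀ (by linarith [hlam2 i]) (by linarith [hlam0 i])
  have hAW : ∀ m x y, A x y - Wm D A m x y =
      Spec U lam (fun t => t * (1 - (D ^ 2)⁻¹ * t ^ 2) ^ m) x y := by
    intro m x y
    rw [hA', hW, ← Matrix.sub_apply, Spec_sub]
    congr 2
    funext t
    ring
  refine ⟨?_, ?_, ?_, ?_, ?_⟩
  · intro m hm
    simp only [hAW]
    refine Spec_opLe h2 _ _ ?_ (by positivity)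
    intro i
    have h4 := Spec_abs_mul_pow_le (lam i / D) (by
      rw [div_pow, div_le_one hD2]
      exact sq_le_sq' (by linarith [neg_abs_le (lam i), hlam i])
        ((le_abs_self _).trans (hlam i))) m hm
    have h5 : lam i * (1 - (D ^ 2)⁻¹ * lam i ^ 2) ^ m =
        D * (lam i / D * (1 - (lam i / D) ^ 2) ^ m) := by
      have h6 : (D ^ 2)⁻¹ * lam i ^ 2 = (lam i / D) ^ 2 := by
        rw [div_pow]; field_simp
      rw [h6]
      field_simp
    rw [h5, abs_mul, abs_of_pos hD]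
    calc D * |lam i / D * (1 - (lam i / D) ^ 2) ^ m| ≤ D * (1 / Real.sqrt m) :=
          mul_le_mul_of_nonneg_left h4 hD.le
      _ = D / Real.sqrt m := by rw [mul_one_div]
  · intro m x y
    rw [hW, Spec_apply, Spec_apply]
    exact Finset.sum_congr rfl fun i _ => by ring
  · intro m v
    unfold nrm
    refine Real.sqrt_le_sqrt ?_
    simp only [hW, hA']
    rw [Spec_nrm h1, Spec_nrm h1]
    refine Finset.sum_le_sum fun i _ => mul_le_mul_of_nonneg_right ?_ (sq_nonneg _)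
    have h3 := hq0 m i
    have h4 := hq1 m i
    have h5 : (1 - (1 - (D ^ 2)⁻¹ * lam i ^ 2) ^ m) ^ 2 ≤ 1 := by
      have e1 : 0 ≤ 1 - (1 - (D ^ 2)⁻¹ * lam i ^ 2) ^ m := by linarith
      exact pow_le_one₀ e1 (by linarith)
    rw [mul_pow]
    calc lam i ^ 2 * (1 - (1 - (D ^ 2)⁻¹ * lam i ^ 2) ^ m) ^ 2 ≤ lam i ^ 2 * 1 :=
          mul_le_mul_of_nonneg_left h5 (sq_nonneg _)
      _ = lam i ^ 2 := mul_one _
  · intro m v
    unfold nrm
    refine Real.sqrt_le_sqrt ?_
    simp only [hAW]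
    simp only [hA']
    rw [Spec_nrm h1, Spec_nrm h1]
    refine Finset.sum_le_sum fun i _ => mul_le_mul_of_nonneg_right ?_ (sq_nonneg _)
    have h5 : ((1 - (D ^ 2)⁻¹ * lam i ^ 2) ^ m) ^ 2 ≤ 1 :=
      pow_le_one₀ (hq0 m i) (hq1 m i)
    rw [mul_pow]
    calc lam i ^ 2 * ((1 - (D ^ 2)⁻¹ * lam i ^ 2) ^ m) ^ 2 ≤ lam i ^ 2 * 1 :=
          mul_le_mul_of_nonneg_left h5 (sq_nonneg _)
      _ = lam i ^ 2 := mul_one _
  · intro m m' hmm
    have e0 : ∀ x y, Wm D A m' x y - Wm D A m x y = Spec U lam (fun t =>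
        t * (1 - (1 - (D ^ 2)⁻¹ * t ^ 2) ^ m') - t * (1 - (1 - (D ^ 2)⁻¹ * t ^ 2) ^ m)) x y := by
      intro x y
      rw [hW, hW, ← Matrix.sub_apply, Spec_sub]
    simp only [e0]
    simp only [hW]
    rw [Spec_hs h1 h2, Spec_hs h1 h2, Spec_hs h1 h2, ← Finset.sum_sub_distrib]
    refine Finset.sum_le_sum fun i _ => ?_
    have e1 := hq0 m' i
    have e2 : (1 - (D ^ 2)⁻¹ * lam i ^ 2) ^ m' ≤ (1 - (D ^ 2)⁻¹ * lam i ^ 2) ^ m :=
      pow_le_pow_of_le_one (by linarith [hlam2 i]) (by linarith [hlam0 i]) hmm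
    have e3 := hq1 m i
    obtain ⟨q, hq⟩ : ∃ q, q = (1 - (D ^ 2)⁻¹ * lam i ^ 2) ^ m := ⟨_, rfl⟩
    obtain ⟨q', hq'⟩ : ∃ q', q' = (1 - (D ^ 2)⁻¹ * lam i ^ 2) ^ m' := ⟨_, rfl⟩
    rw [← hq] at e2 e3 ⊢
    rw [← hq'] at e1 e2 ⊢
    have e4 : (q - q') ^ 2 ≤ (1 - q') ^ 2 - (1 - q) ^ 2 := by nlinarith
    calc (lam i * (1 - q') - lam i * (1 - q)) ^ 2 = lam i ^ 2 * (q - q') ^ 2 := by ring
      _ ≤ lam i ^ 2 * ((1 - q') ^ 2 - (1 - q) ^ 2) := mul_le_mul_of_nonneg_left e4 (sq_nonneg _)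
      _ = _ := by ring

end Pool.Agent.Helper85.Vu
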