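import Pool.Agent.Helper85.Vu.Defs

/-!
Block A2: entrywise products with powers of the smoothed adjacency matrix keep a small
operator norm.
-/

set_option linter.unusedVariables false

namespace Pool.Agent.Helper85.Vu

open Finset
open scoped Classical

section A2

variable {V : Type} [Fintype V]

/-- the matrix `A² / D²` -/
noncomputable def A2B (D : ℝ) (A : V → V → ℝ) : Matrix V V ℝ :=
  (D ^ 2)⁻¹ • (Matrix.of A) ^ 2

/-- the matrix `1 - (1 - A² / D²)^m` -/
noncomputable def A2Q (D : ℝ) (A : V → V → ℝ) (m : ℕ) : Matrix V V ℝ :=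
  1 - (1 - A2B D A) ^ m

theorem A2Q_zero (D : ℝ) (A : V → V → ℝ) : A2Q D A 0 = 0 := by
  simp [A2Q]

theorem A2Q_succ (D : ℝ) (A : V → V → ℝ) (m : ℕ) :
    A2Q D A (m + 1) = A2Q D A m + A2B D A - A2Q D A m * A2B D A := by
  unfold A2Q
  rw [pow_succ]
  noncomm_ring

theorem Wm_eq_A2Q (D : ℝ) (A : V → V → ℝ) (m : ℕ) (x y : V) :
    Wm D A m x y = ∑ s, A x s * A2Q D A m s y := by
  unfold Wm A2Q A2B
  rw [Matrix.mul_apply]
  rfl

theorem A2B_apply (D : ℝ) (A : V → V → ℝ) (s y : V) :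
    A2B D A s y = (D ^ 2)⁻¹ * ∑ z, A s z * A z y := by
  have h : (Matrix.of A ^ 2) s y = ∑ z, A s z * A z y := by
    rw [pow_two, Matrix.mul_apply]
    rfl
  unfold A2B
  rw [Matrix.smul_apply, h, smul_eq_mul]

variable {D : ℝ} {A : V → V → ℝ}

theorem Adj.pos_A2 (hA : Adj D A) : 0 < D := lt_of_lt_of_le one_pos hA.one_le

theorem Adj.nn_A2 (hA : Adj D A) (x y : V) : 0 ≤ A x y := by
  rcases hA.zo x y with h | h
  · rw [h]
  · rw [h]; norm_num

theorem Adj.le_A2 (hA : Adj D A) (x y : V) : A x y ≤ 1 := by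
  rcases hA.zo x y with h | h
  · rw [h]; norm_num
  · rw [h]

theorem Adj.sq_A2 (hA : Adj D A) (x y : V) : A x y ^ 2 = A x y := by
  rcases hA.zo x y with h | h <;> rw [h] <;> norm_num

theorem Adj.col_A2 (hA : Adj D A) (y : V) : ∑ x, A x y ≤ D := by
  calc ∑ x, A x y = ∑ x, A y x := Finset.sum_congr rfl (fun x _ => hA.symm x y)
    _ ≤ D := hA.row y

theorem A2B_nonneg (hA : Adj D A) (s y : V) : 0 ≤ A2B D A s y := by
  rw [A2B_apply]
  exact mul_nonneg (by positivity)
    (Finset.sum_nonneg fun z _ => mul_nonneg (hA.nn_A2 _ _) (hA.nn_A2 _ _))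

theorem A2B_le (hA : Adj D A) (s y : V) : A2B D A s y ≤ 1 / D := by
  have hD := hA.pos_A2
  rw [A2B_apply]
  have h1 : ∑ z, A s z * A z y ≤ D := by
    calc ∑ z, A s z * A z y ≤ ∑ z, A s z :=
          Finset.sum_le_sum fun z _ => mul_le_of_le_one_right (hA.nn_A2 _ _) (hA.le_A2 _ _)
      _ ≤ D := hA.row s
  calc (D ^ 2)⁻¹ * ∑ z, A s z * A z y ≤ (D ^ 2)⁻¹ * D :=
        mul_le_mul_of_nonneg_left h1 (by positivity)
    _ = 1 / D := by field_simp

theorem A2B_col (hA : Adj D A) (y : V) : ∑ t, A2B D A t y ≤ 1 := by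
  have hD := hA.pos_A2
  have h1 : ∑ t, ∑ z, A t z * A z y ≤ D * D := by
    rw [Finset.sum_comm]
    calc ∑ z, ∑ t, A t z * A z y = ∑ z, (∑ t, A t z) * A z y :=
          Finset.sum_congr rfl fun z _ => by rw [Finset.sum_mul]
      _ ≤ ∑ z, D * A z y :=
          Finset.sum_le_sum fun z _ => mul_le_mul_of_nonneg_right (hA.col_A2 z) (hA.nn_A2 _ _)
      _ = D * ∑ z, A z y := by rw [Finset.mul_sum]
      _ ≤ D * D := mul_le_mul_of_nonneg_left (hA.col_A2 y) hD.le
  calc ∑ t, A2B D A t y = (D ^ 2)⁻¹ * ∑ t, ∑ z, A t z * A z y := by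
        rw [Finset.mul_sum]
        exact Finset.sum_congr rfl fun t _ => A2B_apply D A t y
    _ ≤ (D ^ 2)⁻¹ * (D * D) := mul_le_mul_of_nonneg_left h1 (by positivity)
    _ = 1 := by field_simp

theorem A2Q_abs_le (hA : Adj D A) (m : ℕ) (s y : V) : |A2Q D A m s y| ≤ (2 ^ m - 1) / D := by
  have hD := hA.pos_A2
  induction m generalizing s y with
  | zero => simp [A2Q_zero]
  | succ m ih =>
    rw [A2Q_succ, Matrix.sub_apply, Matrix.add_apply, Matrix.mul_apply]
    have hB0 := A2B_nonneg hA s y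
    have hB1 := A2B_le hA s y
    have h1 := ih s y
    have h2 : |∑ t, A2Q D A m s t * A2B D A t y| ≤ (2 ^ m - 1) / D := by
      calc |∑ t, A2Q D A m s t * A2B D A t y| ≤ ∑ t, |A2Q D A m s t * A2B D A t y| :=
            Finset.abs_sum_le_sum_abs _ _
        _ = ∑ t, |A2Q D A m s t| * A2B D A t y :=
            Finset.sum_congr rfl fun t _ => by
              rw [abs_mul, abs_of_nonneg (A2B_nonneg hA t y)]
        _ ≤ ∑ t, (2 ^ m - 1) / D * A2B D A t y :=
            Finset.sum_le_sum fun t _ =>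
              mul_le_mul_of_nonneg_right (ih s t) (A2B_nonneg hA t y)
        _ = (2 ^ m - 1) / D * ∑ t, A2B D A t y := by rw [Finset.mul_sum]
        _ ≤ (2 ^ m - 1) / D * 1 := by
            apply mul_le_mul_of_nonneg_left (A2B_col hA y)
            apply div_nonneg _ hD.le
            have : (1 : ℝ) ≤ 2 ^ m := one_le_pow₀ (by norm_num)
            linarith
        _ = _ := mul_one _
    have h3 : (2 ^ (m + 1) - 1) / D = (2 ^ m - 1) / D + 1 / D + (2 ^ m - 1) / D := by
      rw [pow_succ]; ring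
    rw [h3]
    calc |A2Q D A m s y + A2B D A s y - ∑ t, A2Q D A m s t * A2B D A t y|
        ≤ |A2Q D A m s y + A2B D A s y| + |∑ t, A2Q D A m s t * A2B D A t y| := abs_sub _ _
      _ ≤ (|A2Q D A m s y| + |A2B D A s y|) + |∑ t, A2Q D A m s t * A2B D A t y| := by
          gcongr
          exact abs_add_le _ _
      _ ≤ _ := by
          rw [abs_of_nonneg hB0]
          gcongr

theorem A2Q_col (hA : Adj D A) (m : ℕ) (y : V) : ∑ s, |A2Q D A m s y| ≤ 2 ^ m - 1 := by
  induction m generalizing y with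
  | zero => simp [A2Q_zero]
  | succ m ih =>
    have h0 : ∀ s, |A2Q D A (m + 1) s y| ≤
        |A2Q D A m s y| + A2B D A s y + ∑ t, |A2Q D A m s t| * A2B D A t y := by
      intro s
      rw [A2Q_succ, Matrix.sub_apply, Matrix.add_apply, Matrix.mul_apply]
      calc |A2Q D A m s y + A2B D A s y - ∑ t, A2Q D A m s t * A2B D A t y|
          ≤ |A2Q D A m s y + A2B D A s y| + |∑ t, A2Q D A m s t * A2B D A t y| := abs_sub _ _
        _ ≤ (|A2Q D A m s y| + |A2B D A s y|) + ∑ t, |A2Q D A m s t * A2B D A t y| := by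
            gcongr
            · exact abs_add_le _ _
            · exact Finset.abs_sum_le_sum_abs _ _
        _ = _ := by
            rw [abs_of_nonneg (A2B_nonneg hA s y)]
            congr 1
            exact Finset.sum_congr rfl fun t _ => by
              rw [abs_mul, abs_of_nonneg (A2B_nonneg hA t y)]
    calc ∑ s, |A2Q D A (m + 1) s y|
        ≤ ∑ s, (|A2Q D A m s y| + A2B D A s y + ∑ t, |A2Q D A m s t| * A2B D A t y) :=
          Finset.sum_le_sum fun s _ => h0 s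
      _ = ∑ s, |A2Q D A m s y| + ∑ s, A2B D A s y +
            ∑ t, (∑ s, |A2Q D A m s t|) * A2B D A t y := by
          rw [Finset.sum_add_distrib, Finset.sum_add_distrib, Finset.sum_comm]
          congr 1
          exact Finset.sum_congr rfl fun t _ => by rw [Finset.sum_mul]
      _ ≤ (2 ^ m - 1) + 1 + ∑ t, (2 ^ m - 1) * A2B D A t y := by
          gcongr with t _
          · exact ih y
          · exact A2B_col hA y
          · exact A2B_nonneg hA t y
          · exact ih t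
      _ = (2 ^ m - 1) + 1 + (2 ^ m - 1) * ∑ t, A2B D A t y := by rw [Finset.mul_sum]
      _ ≤ (2 ^ m - 1) + 1 + (2 ^ m - 1) * 1 := by
          have : (1 : ℝ) ≤ 2 ^ m := one_le_pow₀ (by norm_num)
          have := mul_le_mul_of_nonneg_left (A2B_col hA y) (by linarith : (0:ℝ) ≤ 2 ^ m - 1)
          linarith
      _ = 2 ^ (m + 1) - 1 := by rw [pow_succ]; ring

theorem A2Q_sq (hA : Adj D A) (m : ℕ) (y : V) :
    ∑ s, A2Q D A m s y ^ 2 ≤ (2 ^ m) ^ 2 / D := by
  have hD := hA.pos_A2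
  have h1m : (1 : ℝ) ≤ 2 ^ m := one_le_pow₀ (by norm_num)
  calc ∑ s, A2Q D A m s y ^ 2 = ∑ s, |A2Q D A m s y| * |A2Q D A m s y| :=
        Finset.sum_congr rfl fun s _ => by rw [← sq_abs]; ring
    _ ≤ ∑ s, (2 ^ m / D) * |A2Q D A m s y| := by
        refine Finset.sum_le_sum fun s _ => mul_le_mul_of_nonneg_right ?_ (abs_nonneg _)
        refine (A2Q_abs_le hA m s y).trans ?_
        gcongr
        linarith
    _ = (2 ^ m / D) * ∑ s, |A2Q D A m s y| := by rw [Finset.mul_sum]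
    _ ≤ (2 ^ m / D) * 2 ^ m := by
        refine mul_le_mul_of_nonneg_left ((A2Q_col hA m y).trans ?_) (by positivity)
        linarith
    _ = _ := by ring

/-- A2' -/
theorem abs_Wm_le {V : Type} [Fintype V] {D : ℝ} {A : V → V → ℝ} (hA : Adj D A) (m : ℕ)
    (x y : V) : |Wm D A m x y| ≤ 2 ^ m := by
  have hD := hA.pos_A2
  rw [Wm_eq_A2Q]
  calc |∑ s, A x s * A2Q D A m s y| ≤ ∑ s, |A x s * A2Q D A m s y| :=
        Finset.abs_sum_le_sum_abs _ _
    _ = ∑ s, A x s * |A2Q D A m s y| :=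
        Finset.sum_congr rfl fun s _ => by rw [abs_mul, abs_of_nonneg (hA.nn_A2 x s)]
    _ ≤ ∑ s, A x s * ((2 ^ m - 1) / D) :=
        Finset.sum_le_sum fun s _ => mul_le_mul_of_nonneg_left (A2Q_abs_le hA m s y) (hA.nn_A2 x s)
    _ = (∑ s, A x s) * ((2 ^ m - 1) / D) := by rw [Finset.sum_mul]
    _ ≤ D * ((2 ^ m - 1) / D) := by
        apply mul_le_mul_of_nonneg_right (hA.row x)
        apply div_nonneg _ hD.le
        have : (1 : ℝ) ≤ 2 ^ m := one_le_pow₀ (by norm_num)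
        linarith
    _ = 2 ^ m - 1 := by field_simp
    _ ≤ 2 ^ m := by linarith

theorem nrm_nonneg_A2 (h : V → ℝ) : 0 ≤ nrm h := Real.sqrt_nonneg _

theorem nrm_sq_A2 (h : V → ℝ) : nrm h ^ 2 = ∑ x, h x ^ 2 :=
  Real.sq_sqrt (Finset.sum_nonneg fun x _ => sq_nonneg _)

/-- one entrywise product -/
theorem entrywise_one (hA : Adj D A) (m : ℕ)
    {M : V → V → ℝ} {μ : ℝ} (hμ : 0 ≤ μ) (hM : OpLe M μ) :
    OpLe (fun x y => M x y * Wm D A m x y) (μ * 2 ^ m) := by
  intro h b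
  have hD := hA.pos_A2
  set Q := A2Q D A m with hQ
  have e1 : ∑ x, ∑ y, h x * (M x y * Wm D A m x y) * b y =
      ∑ s, ∑ x, ∑ y, (h x * A x s) * M x y * (b y * Q s y) := by
    calc ∑ x, ∑ y, h x * (M x y * Wm D A m x y) * b y
        = ∑ x, ∑ y, ∑ s, (h x * A x s) * M x y * (b y * Q s y) := by
          refine Finset.sum_congr rfl fun x _ => Finset.sum_congr rfl fun y _ => ?_
          rw [Wm_eq_A2Q, Finset.mul_sum, Finset.mul_sum, Finset.sum_mul]
          refine Finset.sum_congr rfl fun s _ => ?_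
          rw [hQ]; ring
      _ = ∑ x, ∑ s, ∑ y, (h x * A x s) * M x y * (b y * Q s y) :=
          Finset.sum_congr rfl fun x _ => Finset.sum_comm
      _ = _ := Finset.sum_comm
  have e2 : ∀ s, |∑ x, ∑ y, (h x * A x s) * M x y * (b y * Q s y)| ≤
      μ * (nrm (fun x => h x * A x s) * nrm (fun y => b y * Q s y)) := by
    intro s
    have := hM (fun x => h x * A x s) (fun y => b y * Q s y)
    rw [mul_assoc] at this
    exact this
  have f1 : ∑ s, nrm (fun x => h x * A x s) ^ 2 ≤ D * nrm h ^ 2 := by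
    calc ∑ s, nrm (fun x => h x * A x s) ^ 2 = ∑ s, ∑ x, h x ^ 2 * A x s := by
          refine Finset.sum_congr rfl fun s _ => ?_
          rw [nrm_sq_A2]
          refine Finset.sum_congr rfl fun x _ => ?_
          rw [mul_pow, hA.sq_A2]
      _ = ∑ x, h x ^ 2 * ∑ s, A x s := by
          rw [Finset.sum_comm]
          exact Finset.sum_congr rfl fun x _ => by rw [Finset.mul_sum]
      _ ≤ ∑ x, h x ^ 2 * D :=
          Finset.sum_le_sum fun x _ => mul_le_mul_of_nonneg_left (hA.row x) (sq_nonneg _)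
      _ = D * nrm h ^ 2 := by rw [nrm_sq_A2, ← Finset.sum_mul, mul_comm]
  have f2 : ∑ s, nrm (fun y => b y * Q s y) ^ 2 ≤ (2 ^ m) ^ 2 / D * nrm b ^ 2 := by
    calc ∑ s, nrm (fun y => b y * Q s y) ^ 2 = ∑ s, ∑ y, b y ^ 2 * Q s y ^ 2 := by
          refine Finset.sum_congr rfl fun s _ => ?_
          rw [nrm_sq_A2]
          refine Finset.sum_congr rfl fun x _ => ?_
          rw [mul_pow]
      _ = ∑ y, b y ^ 2 * ∑ s, Q s y ^ 2 := by
          rw [Finset.sum_comm]
          exact Finset.sum_congr rfl fun x _ => by rw [Finset.mul_sum]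
      _ ≤ ∑ y, b y ^ 2 * ((2 ^ m) ^ 2 / D) :=
          Finset.sum_le_sum fun y _ => mul_le_mul_of_nonneg_left (A2Q_sq hA m y) (sq_nonneg _)
      _ = (2 ^ m) ^ 2 / D * nrm b ^ 2 := by rw [nrm_sq_A2, ← Finset.sum_mul, mul_comm]
  have f3 : ∑ s, nrm (fun x => h x * A x s) * nrm (fun y => b y * Q s y) ≤
      2 ^ m * nrm h * nrm b := by
    have hcs := Finset.sum_mul_sq_le_sq_mul_sq Finset.univ
      (fun s => nrm (fun x => h x * A x s)) (fun s => nrm (fun y => b y * Q s y))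
    have h1 : (∑ s, nrm (fun x => h x * A x s) * nrm (fun y => b y * Q s y)) ^ 2 ≤
        (2 ^ m * nrm h * nrm b) ^ 2 := by
      refine hcs.trans ?_
      calc (∑ s, nrm (fun x => h x * A x s) ^ 2) * ∑ s, nrm (fun y => b y * Q s y) ^ 2
          ≤ (D * nrm h ^ 2) * ((2 ^ m) ^ 2 / D * nrm b ^ 2) :=
            mul_le_mul f1 f2 (Finset.sum_nonneg fun _ _ => sq_nonneg _)
              (mul_nonneg hD.le (sq_nonneg _))
        _ = (2 ^ m * nrm h * nrm b) ^ 2 := by field_simp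
    have h2 : 0 ≤ 2 ^ m * nrm h * nrm b :=
      mul_nonneg (mul_nonneg (by positivity) (nrm_nonneg_A2 h)) (nrm_nonneg_A2 b)
    exact (abs_le_of_sq_le_sq' h1 h2).2
  show |∑ x, ∑ y, h x * (M x y * Wm D A m x y) * b y| ≤ _
  rw [e1]
  calc |∑ s, ∑ x, ∑ y, (h x * A x s) * M x y * (b y * Q s y)|
      ≤ ∑ s, |∑ x, ∑ y, (h x * A x s) * M x y * (b y * Q s y)| :=
        Finset.abs_sum_le_sum_abs _ _
    _ ≤ ∑ s, μ * (nrm (fun x => h x * A x s) * nrm (fun y => b y * Q s y)) :=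
        Finset.sum_le_sum fun s _ => e2 s
    _ = μ * ∑ s, nrm (fun x => h x * A x s) * nrm (fun y => b y * Q s y) := by
        rw [Finset.mul_sum]
    _ ≤ μ * (2 ^ m * nrm h * nrm b) := mul_le_mul_of_nonneg_left f3 hμ
    _ = μ * 2 ^ m * nrm h * nrm b := by ring

/-- A2 -/
theorem entrywise {V : Type} [Fintype V] {D : ℝ} {A : V → V → ℝ} (hA : Adj D A) (m k : ℕ)
    {M : V → V → ℝ} {μ : ℝ} (hμ : 0 ≤ μ) (hM : OpLe M μ) :
    OpLe (fun x y => M x y * Wm D A m x y ^ k) (μ * (2 ^ m) ^ k) := by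
  induction k with
  | zero => simpa using hM
  | succ k ih =>
    have h1 := entrywise_one hA m (mul_nonneg hμ (by positivity)) ih
    have h2 : (fun x y => M x y * Wm D A m x y ^ (k + 1)) =
        (fun x y => (M x y * Wm D A m x y ^ k) * Wm D A m x y) := by
      funext x y; rw [pow_succ]; ring
    have h3 : μ * (2 ^ m) ^ (k + 1) = μ * (2 ^ m) ^ k * 2 ^ m := by rw [pow_succ]; ring
    rw [h2, h3]
    exact h1

end A2

end Pool.Agent.Helper85.Vu
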