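import Pool.Agent.Helper85.Vu.Defs

set_option linter.unusedVariables false

/-! Preparations for the twin lemma: norms, Schur test, quadratic form of `Wm`, eigenvectors. -/

namespace Pool.Agent.Helper85.Vu.Tw

open Finset
open scoped Classical

variable {V : Type} [Fintype V]

theorem nrm_sq (h : V → ℝ) : nrm h ^ 2 = ∑ x, h x ^ 2 := by
  unfold nrm; exact Real.sq_sqrt (sum_nonneg fun x _ => sq_nonneg _)

theorem nrm_nonneg (h : V → ℝ) : 0 ≤ nrm h := Real.sqrt_nonneg _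

theorem nrm_eq_norm (h : V → ℝ) : nrm h = ‖(WithLp.toLp 2 h : EuclideanSpace ℝ V)‖ := by
  rw [EuclideanSpace.norm_eq]; simp [nrm]

theorem nrm_add (h b : V → ℝ) : nrm (h + b) ≤ nrm h + nrm b := by
  rw [nrm_eq_norm, nrm_eq_norm, nrm_eq_norm, WithLp.toLp_add]
  exact norm_add_le _ _

theorem nrm_sub (h b : V → ℝ) : nrm (h - b) ≤ nrm h + nrm b := by
  rw [nrm_eq_norm, nrm_eq_norm, nrm_eq_norm, WithLp.toLp_sub]
  exact norm_sub_le _ _

theorem nrm_smul (c : ℝ) (h : V → ℝ) : nrm (c • h) = |c| * nrm h := by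
  rw [nrm_eq_norm, nrm_eq_norm, WithLp.toLp_smul, norm_smul, Real.norm_eq_abs]

theorem inner_le (h b : V → ℝ) : |∑ x, h x * b x| ≤ nrm h * nrm b := by
  have h1 := Finset.sum_mul_sq_le_sq_mul_sq univ h b
  rw [← nrm_sq, ← nrm_sq, ← mul_pow] at h1
  exact abs_le_of_sq_le_sq h1 (mul_nonneg (nrm_nonneg _) (nrm_nonneg _))

/-- Schur test -/
theorem schur {D : ℝ} {A : V → V → ℝ} (hA : Adj D A) (v : V → ℝ) :
    nrm (fun x => ∑ y, A x y * v y) ≤ D * nrm v := by
  have hD : 0 ≤ D := le_trans zero_le_one hA.one_le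
  have hA0 : ∀ x y, 0 ≤ A x y := fun x y => by
    rcases hA.zo x y with h | h <;> rw [h] <;> norm_num
  apply le_of_sq_le_sq _ (mul_nonneg hD (nrm_nonneg _))
  rw [nrm_sq, mul_pow, nrm_sq]
  have h1 : ∀ x, (∑ y, A x y * v y) ^ 2 ≤ D * ∑ y, A x y * v y ^ 2 := by
    intro x
    have h2 := Finset.sum_sq_le_sum_mul_sum_of_sq_le_mul univ (r := fun y => A x y * v y)
      (f := fun y => A x y) (g := fun y => A x y * v y ^ 2) (fun y _ => hA0 x y)
      (fun y _ => mul_nonneg (hA0 x y) (sq_nonneg _)) (fun y _ => le_of_eq (by ring))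
    refine h2.trans (mul_le_mul_of_nonneg_right (hA.row x) ?_)
    exact sum_nonneg fun y _ => mul_nonneg (hA0 x y) (sq_nonneg _)
  calc ∑ x, (∑ y, A x y * v y) ^ 2 ≤ ∑ x, D * ∑ y, A x y * v y ^ 2 := sum_le_sum fun x _ => h1 x
    _ = D * ∑ y, (∑ x, A x y) * v y ^ 2 := by
        rw [← mul_sum, sum_comm]
        simp_rw [sum_mul]
    _ ≤ D * ∑ y, D * v y ^ 2 := by
        apply mul_le_mul_of_nonneg_left _ hD
        apply sum_le_sum
        intro y _
        apply mul_le_mul_of_nonneg_right _ (sq_nonneg _)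
        have : ∑ x, A x y = ∑ x, A y x := sum_congr rfl fun x _ => hA.symm x y
        rw [this]; exact hA.row y
    _ = D ^ 2 * ∑ x, v x ^ 2 := by rw [← mul_sum]; ring

open Matrix

theorem mulVec_schur {D : ℝ} {A : V → V → ℝ} (hA : Adj D A) (v : V → ℝ) :
    nrm ((Matrix.of A) *ᵥ v) ≤ D * nrm v := schur hA v

/-- `A² / D²` -/
noncomputable def XX (D : ℝ) (A : V → V → ℝ) : Matrix V V ℝ := (D ^ 2)⁻¹ • (Matrix.of A) ^ 2

theorem nrm_XX {D : ℝ} {A : V → V → ℝ} (hA : Adj D A) (v : V → ℝ) :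
    nrm (XX D A *ᵥ v) ≤ nrm v := by
  have hD : 0 < D := lt_of_lt_of_le one_pos hA.one_le
  unfold XX
  rw [Matrix.smul_mulVec, nrm_smul, pow_two (Matrix.of A), ← Matrix.mulVec_mulVec]
  have h1 := mulVec_schur hA ((Matrix.of A) *ᵥ v)
  have h2 := mulVec_schur hA v
  rw [abs_of_pos (by positivity)]
  have h3 : nrm ((Matrix.of A) *ᵥ ((Matrix.of A) *ᵥ v)) ≤ D ^ 2 * nrm v := by
    calc _ ≤ D * nrm ((Matrix.of A) *ᵥ v) := h1
      _ ≤ D * (D * nrm v) := mul_le_mul_of_nonneg_left h2 hD.le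
      _ = _ := by ring
  calc (D ^ 2)⁻¹ * _ ≤ (D ^ 2)⁻¹ * (D ^ 2 * nrm v) :=
        mul_le_mul_of_nonneg_left h3 (by positivity)
    _ = nrm v := by field_simp

theorem nrm_YY {D : ℝ} {A : V → V → ℝ} (hA : Adj D A) (v : V → ℝ) :
    nrm ((1 - XX D A) *ᵥ v) ≤ 2 * nrm v := by
  rw [Matrix.sub_mulVec, Matrix.one_mulVec]
  have := nrm_sub v (XX D A *ᵥ v)
  have := nrm_XX hA v
  linarith

theorem nrm_YYpow {D : ℝ} {A : V → V → ℝ} (hA : Adj D A) (j : ℕ) (v : V → ℝ) :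
    nrm ((1 - XX D A) ^ j *ᵥ v) ≤ 2 ^ j * nrm v := by
  induction j generalizing v with
  | zero => simp
  | succ j ih =>
    rw [pow_succ, ← Matrix.mulVec_mulVec]
    calc _ ≤ 2 ^ j * nrm ((1 - XX D A) *ᵥ v) := ih _
      _ ≤ 2 ^ j * (2 * nrm v) := mul_le_mul_of_nonneg_left (nrm_YY hA v) (by positivity)
      _ = _ := by ring

theorem nrm_TT {D : ℝ} {A : V → V → ℝ} (hA : Adj D A) (m : ℕ) (v : V → ℝ) :
    nrm ((∑ j ∈ range m, (1 - XX D A) ^ j) *ᵥ v) ≤ 2 ^ m * nrm v := by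
  induction m with
  | zero => 
    simp only [range_zero, sum_empty, Matrix.zero_mulVec, pow_zero, one_mul]
    have : nrm (0 : V → ℝ) = 0 := by simp [nrm]
    rw [this]; exact nrm_nonneg v
  | succ m ih =>
    rw [sum_range_succ, Matrix.add_mulVec]
    calc _ ≤ _ + _ := nrm_add _ _
      _ ≤ 2 ^ m * nrm v + 2 ^ m * nrm v := add_le_add ih (nrm_YYpow hA m v)
      _ = _ := by ring

theorem Wm_eq (D : ℝ) (A : V → V → ℝ) (m : ℕ) :
    Wm D A m = (Matrix.of A) * ((∑ j ∈ range m, (1 - XX D A) ^ j) * XX D A) := by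
  have h := geom_sum_mul_neg (1 - XX D A) m
  rw [sub_sub_cancel] at h
  rw [h]; rfl

theorem quad_le {D : ℝ} {A : V → V → ℝ} (hA : Adj D A) (m : ℕ) (b : V → ℝ) :
    |∑ x, b x * ∑ y, Wm D A m x y * b y| ≤
      2 ^ m / D * nrm (fun x => ∑ y, A x y * b y) ^ 2 := by
  have hD : 0 < D := lt_of_lt_of_le one_pos hA.one_le
  set w : V → ℝ := (Matrix.of A) *ᵥ b with hw
  have e1 : ∑ x, b x * ∑ y, Wm D A m x y * b y =
      (D ^ 2)⁻¹ * ∑ x, w x * ((∑ j ∈ range m, (1 - XX D A) ^ j) *ᵥ ((Matrix.of A) *ᵥ w)) x := by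
    have h1 : ∑ x, b x * ∑ y, Wm D A m x y * b y = b ⬝ᵥ (Wm D A m *ᵥ b) := rfl
    have h2 : ∑ x, w x * ((∑ j ∈ range m, (1 - XX D A) ^ j) *ᵥ ((Matrix.of A) *ᵥ w)) x =
      w ⬝ᵥ ((∑ j ∈ range m, (1 - XX D A) ^ j) *ᵥ ((Matrix.of A) *ᵥ w)) := rfl
    rw [h1, h2, Wm_eq, ← Matrix.mulVec_mulVec, ← Matrix.mulVec_mulVec, Matrix.dotProduct_mulVec]
    have h3 : b ᵥ* (Matrix.of A) = w := by
      rw [hw]
      funext x
      simp only [Matrix.vecMul, Matrix.mulVec, dotProduct, Matrix.of_apply]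
      exact sum_congr rfl fun y _ => by rw [hA.symm y x, mul_comm]
    have h4 : XX D A *ᵥ b = (D ^ 2)⁻¹ • ((Matrix.of A) *ᵥ w) := by
      unfold XX
      rw [Matrix.smul_mulVec, pow_two (Matrix.of A), ← Matrix.mulVec_mulVec]
    rw [h3, h4, Matrix.mulVec_smul, dotProduct_smul, smul_eq_mul]
  rw [e1, abs_mul, abs_of_pos (by positivity : (0 : ℝ) < (D ^ 2)⁻¹)]
  have h5 := inner_le w ((∑ j ∈ range m, (1 - XX D A) ^ j) *ᵥ ((Matrix.of A) *ᵥ w))
  have h6 : nrm ((∑ j ∈ range m, (1 - XX D A) ^ j) *ᵥ ((Matrix.of A) *ᵥ w)) ≤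
      2 ^ m * (D * nrm w) :=
    (nrm_TT hA m _).trans (mul_le_mul_of_nonneg_left (mulVec_schur hA w) (by positivity))
  have h7 : nrm (fun x => ∑ y, A x y * b y) = nrm w := rfl
  rw [h7]
  calc _ ≤ (D ^ 2)⁻¹ * (nrm w * (2 ^ m * (D * nrm w))) := by
        apply mul_le_mul_of_nonneg_left _ (by positivity)
        exact h5.trans (mul_le_mul_of_nonneg_left h6 (nrm_nonneg _))
    _ = 2 ^ m / D * nrm w ^ 2 := by field_simp

/-- eigenvectors of a symmetric matrix restricted to `S` -/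
theorem eig (S : Finset V) (W : V → V → ℝ) (hW : ∀ x y, W x y = W y x) :
    ∃ (ι : Type) (_ : Fintype ι) (b : ι → V → ℝ) (σ : ι → ℝ),
      (∀ i x, x ∉ S → b i x = 0) ∧
      (∀ x ∈ S, ∀ y ∈ S, ∑ i, b i x * b i y = if x = y then 1 else 0) ∧
      (∀ i j, ∑ x ∈ S, b i x * b j x = if i = j then 1 else 0) ∧
      (∀ i, ∀ x ∈ S, ∑ y ∈ S, W x y * b i y = σ i * b i x) := by
  let H : Matrix S S ℝ := fun x y => W x y
  have hH : H.IsHermitian := by
    ext x y
    simp only [Matrix.conjTranspose_apply, star_trivial]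
    exact hW _ _
  let U : Matrix S S ℝ := (hH.eigenvectorUnitary : Matrix S S ℝ)
  have hU1 : Uᵀ * U = 1 := by
    have := hH.eigenvectorUnitary.2
    have h := (Matrix.mem_unitaryGroup_iff').1 this
    rwa [Matrix.star_eq_conjTranspose, Matrix.conjTranspose_eq_transpose_of_trivial] at h
  have hU2 : U * Uᵀ = 1 := by
    have := hH.eigenvectorUnitary.2
    have h := (Matrix.mem_unitaryGroup_iff).1 this
    rwa [Matrix.star_eq_conjTranspose, Matrix.conjTranspose_eq_transpose_of_trivial] at h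
  refine ⟨S, inferInstance, fun i x => if h : x ∈ S then U ⟨x, h⟩ i else 0, hH.eigenvalues,
    ?_, ?_, ?_, ?_⟩
  · intro i x hx; simp [hx]
  · intro x hx y hy
    simp only [hx, hy, dite_true]
    have h := congrFun (congrFun hU2 ⟨x, hx⟩) ⟨y, hy⟩
    rw [Matrix.mul_apply] at h
    simp only [Matrix.transpose_apply, Matrix.one_apply, Subtype.mk.injEq] at h
    exact h
  · intro i j
    have h := congrFun (congrFun hU1 i) j
    rw [Matrix.mul_apply] at h
    simp only [Matrix.transpose_apply, Matrix.one_apply] at h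
    have h' : ∑ x ∈ S, (if h : x ∈ S then U ⟨x, h⟩ i else 0) *
        (if h : x ∈ S then U ⟨x, h⟩ j else 0) = ∑ z : S, U z i * U z j := by
      rw [← Finset.sum_coe_sort S]
      apply sum_congr rfl
      intro x _
      simp
    refine h'.trans (h.trans ?_)
    by_cases hij : i = j
    · rw [if_pos hij, if_pos hij]
    · rw [if_neg hij, if_neg hij]
  · intro i x hx
    have h := hH.mulVec_eigenvectorBasis i
    have h2 := congrFun h ⟨x, hx⟩
    simp only [hx, dite_true]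
    rw [← Finset.sum_coe_sort S]
    have e1 : ∀ z : S, U z i = (hH.eigenvectorBasis i) z := fun z =>
      hH.eigenvectorUnitary_apply z i
    have h3 : (H *ᵥ ⇑(hH.eigenvectorBasis i)) ⟨x, hx⟩ =
      ∑ y : S, W x y * U y i := by
      simp only [Matrix.mulVec, dotProduct]
      exact sum_congr rfl fun y _ => by rw [e1]
    rw [h3] at h2
    have h4 : ∑ y : S, W x ↑y * (if h : (↑y : V) ∈ S then U ⟨↑y, h⟩ i else 0) =
        ∑ y : S, W x y * U y i := sum_congr rfl fun y _ => by simp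
    rw [h4, h2]
    simp [e1]

omit [Fintype V] in
theorem parseval {ι : Type} [Fintype ι] {S : Finset V} {b : ι → V → ℝ}
    (hb : ∀ x ∈ S, ∀ y ∈ S, ∑ i, b i x * b i y = if x = y then 1 else 0) (r : V → ℝ) :
    ∑ i, (∑ y ∈ S, r y * b i y) ^ 2 = ∑ y ∈ S, r y ^ 2 := by
  have h1 : ∀ i, (∑ y ∈ S, r y * b i y) ^ 2 =
      ∑ y ∈ S, ∑ z ∈ S, r y * r z * (b i y * b i z) := by
    intro i
    rw [pow_two, sum_mul_sum]
    exact sum_congr rfl fun y _ => sum_congr rfl fun z _ => by ring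
  simp_rw [h1]
  rw [sum_comm]
  apply sum_congr rfl
  intro y hy
  rw [sum_comm]
  have h2 : ∀ z ∈ S, ∑ i, r y * r z * (b i y * b i z) = if y = z then r y * r z else 0 := by
    intro z hz
    rw [← mul_sum, hb y hy z hz]
    split_ifs <;> simp
  rw [sum_congr rfl h2, sum_ite_eq S y]
  simp [hy, pow_two]

end Pool.Agent.Helper85.Vu.Tw
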