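import Pool.Agent.Helper85.Vu.A1
import Pool.Agent.Helper85.Vu.A3a

set_option linter.unusedVariables false

/-! The twin lemma. -/

namespace Pool.Agent.Helper85.Vu.Tw

open Finset
open scoped Classical

theorem row_eq {V : Type} {ι : Type} [Fintype ι] {S : Finset V} {b : ι → V → ℝ} {σ : ι → ℝ}
    {W : V → V → ℝ}
    (h1 : ∀ x ∈ S, ∀ y ∈ S, ∑ i, b i x * b i y = if x = y then 1 else 0)
    (h3 : ∀ i, ∀ x ∈ S, ∑ y ∈ S, W x y * b i y = σ i * b i x) {x : V} (hx : x ∈ S) :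
    ∑ y ∈ S, W x y ^ 2 = ∑ i, (σ i * b i x) ^ 2 := by
  rw [← parseval h1 (fun y => W x y)]
  exact sum_congr rfl fun i _ => by rw [h3 i x hx]

theorem diff_eq {V : Type} {ι : Type} [Fintype ι] {S : Finset V} {b : ι → V → ℝ} {σ : ι → ℝ}
    {W : V → V → ℝ}
    (h1 : ∀ x ∈ S, ∀ y ∈ S, ∑ i, b i x * b i y = if x = y then 1 else 0)
    (h3 : ∀ i, ∀ x ∈ S, ∑ y ∈ S, W x y * b i y = σ i * b i x) {x x' : V} (hx : x ∈ S)
    (hx' : x' ∈ S) :
    ∑ y ∈ S, (W x y - W x' y) ^ 2 = ∑ i, (σ i * b i x - σ i * b i x') ^ 2 := by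
  rw [← parseval h1 (fun y => W x y - W x' y)]
  refine sum_congr rfl fun i _ => ?_
  rw [← h3 i x hx, ← h3 i x' hx', ← sum_sub_distrib]
  congr 1
  exact sum_congr rfl fun y _ => by ring

/-- bound for the trace norm -/
theorem trace_le {V : Type} [Fintype V] {D : ℝ} {A : V → V → ℝ} (hA : Adj D A) (m : ℕ)
    {ι : Type} [Fintype ι] {S : Finset V} {b : ι → V → ℝ} {σ : ι → ℝ}
    (h0 : ∀ i x, x ∉ S → b i x = 0)
    (h1 : ∀ x ∈ S, ∀ y ∈ S, ∑ i, b i x * b i y = if x = y then 1 else 0)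
    (h2 : ∀ i j, ∑ x ∈ S, b i x * b j x = if i = j then 1 else 0)
    (h3 : ∀ i, ∀ x ∈ S, ∑ y ∈ S, Wm D A m x y * b i y = σ i * b i x) :
    ∑ i, |σ i| ≤ 2 ^ m * (S.card : ℝ) := by
  have hD : 0 < D := lt_of_lt_of_le one_pos hA.one_le
  have e1 : ∀ i, σ i = ∑ x, b i x * ∑ y, Wm D A m x y * b i y := by
    intro i
    have a1 : ∀ x, ∑ y, Wm D A m x y * b i y = ∑ y ∈ S, Wm D A m x y * b i y := by
      intro x
      symm
      apply sum_subset (subset_univ S)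
      intro y _ hy
      rw [h0 i y hy, mul_zero]
    simp_rw [a1]
    have a2 : ∑ x, b i x * ∑ y ∈ S, Wm D A m x y * b i y =
        ∑ x ∈ S, b i x * ∑ y ∈ S, Wm D A m x y * b i y := by
      symm
      apply sum_subset (subset_univ S)
      intro y _ hy
      rw [h0 i y hy, zero_mul]
    rw [a2]
    have a3 : ∀ x ∈ S, b i x * ∑ y ∈ S, Wm D A m x y * b i y = σ i * (b i x * b i x) := by
      intro x hx
      rw [h3 i x hx]; ring
    rw [sum_congr rfl a3, ← mul_sum, h2 i i, if_pos rfl, mul_one]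
  have e2 : ∀ i, |σ i| ≤ 2 ^ m / D * nrm (fun x => ∑ y, A x y * b i y) ^ 2 := by
    intro i
    rw [e1 i]
    exact quad_le hA m (b i)
  have e3 : ∑ i, nrm (fun x => ∑ y, A x y * b i y) ^ 2 ≤ (S.card : ℝ) * D := by
    have a1 : ∀ i, nrm (fun x => ∑ y, A x y * b i y) ^ 2 =
        ∑ x, (∑ y ∈ S, A x y * b i y) ^ 2 := by
      intro i
      rw [nrm_sq]
      apply sum_congr rfl
      intro x _
      congr 1
      symm
      apply sum_subset (subset_univ S)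
      intro y _ hy
      rw [h0 i y hy, mul_zero]
    simp_rw [a1]
    rw [sum_comm]
    have a2 : ∀ x, ∑ i, (∑ y ∈ S, A x y * b i y) ^ 2 = ∑ y ∈ S, A y x := by
      intro x
      rw [parseval h1 (fun y => A x y)]
      apply sum_congr rfl
      intro y _
      rw [hA.symm y x]
      rcases hA.zo x y with h | h <;> rw [h] <;> norm_num
    simp_rw [a2]
    rw [sum_comm]
    calc ∑ y ∈ S, ∑ x, A y x ≤ ∑ y ∈ S, D := sum_le_sum fun y _ => hA.row y
      _ = _ := by rw [sum_const, nsmul_eq_mul]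
  calc ∑ i, |σ i| ≤ ∑ i, 2 ^ m / D * nrm (fun x => ∑ y, A x y * b i y) ^ 2 :=
        sum_le_sum fun i _ => e2 i
    _ = 2 ^ m / D * ∑ i, nrm (fun x => ∑ y, A x y * b i y) ^ 2 := by rw [mul_sum]
    _ ≤ 2 ^ m / D * ((S.card : ℝ) * D) := mul_le_mul_of_nonneg_left e3 (by positivity)
    _ = 2 ^ m * (S.card : ℝ) := by field_simp

/-- pigeonhole for signatures -/
theorem core {V : Type} {ι : Type} [Fintype ι] (X : Finset V) (f : ι → V → ℝ) (L : Finset ι)
    {D ε c : ℝ} (hD : 0 < D) (hc : 0 < c) {k N : ℕ} (hk : 0 < k) (hL : L.card ≤ N)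
    (hN : (N : ℝ) / (k : ℝ) ^ 2 ≤ ε ^ 2)
    (hf : ∀ x ∈ X, ∀ i, f i x ^ 2 ≤ D)
    (ht : ∀ x ∈ X, ∑ i ∈ Lᶜ, f i x ^ 2 ≤ ε ^ 2 * D)
    (hX : ((2 * k + 1 : ℕ) : ℝ) ^ N * (c * D) < (X.card : ℝ)) :
    ∃ X' ⊆ X, c * D < (X'.card : ℝ) ∧
      ∀ x ∈ X', ∀ x' ∈ X', ∑ i, (f i x - f i x') ^ 2 ≤ 5 * ε ^ 2 * D := by
  have hs : 0 < Real.sqrt D := Real.sqrt_pos.2 hD
  have hk' : (0 : ℝ) < k := by exact_mod_cast hk
  let g : V → (L → ℕ) := fun x i => ⌊(f i x / Real.sqrt D + 1) * k⌋₊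
  have hb : ∀ x ∈ X, ∀ i, -1 ≤ f i x / Real.sqrt D ∧ f i x / Real.sqrt D ≤ 1 := by
    intro x hx i
    have h1 : |f i x| ≤ Real.sqrt D := by
      apply Real.abs_le_sqrt (hf x hx i)
    rw [abs_le] at h1
    constructor
    · rw [le_div_iff₀ hs]; linarith [h1.1]
    · rw [div_le_iff₀ hs]; linarith [h1.2]
  have hmaps : ∀ x ∈ X, g x ∈ Fintype.piFinset (fun _ : L => range (2 * k + 1)) := by
    intro x hx
    rw [Fintype.mem_piFinset]
    intro i
    rw [mem_range]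
    have h1 := hb x hx i
    have h2 : (f i x / Real.sqrt D + 1) * k ≤ ((2 * k : ℕ) : ℝ) := by
      push_cast
      nlinarith [h1.2]
    have h3 : g x i ≤ 2 * k := by
      have := Nat.floor_le_floor h2
      rwa [Nat.floor_natCast] at this
    omega
  have hcard : (Fintype.piFinset (fun _ : L => range (2 * k + 1))).card • (c * D) <
      (X.card : ℝ) := by
    rw [Fintype.card_piFinset]
    simp only [card_range, prod_const, card_univ, Fintype.card_coe, nsmul_eq_mul]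
    refine lt_of_le_of_lt ?_ hX
    apply mul_le_mul_of_nonneg_right _ (by positivity)
    push_cast
    apply pow_le_pow_right₀ _ hL
    linarith
  obtain ⟨y, _, hy⟩ := Finset.exists_lt_card_fiber_of_nsmul_lt_card_of_maps_to hmaps hcard
  refine ⟨X.filter (fun x => g x = y), filter_subset _ _, hy, ?_⟩
  intro x hx x' hx'
  rw [mem_filter] at hx hx'
  have hg : ∀ i : L, g x i = g x' i := fun i => by rw [hx.2, hx'.2]
  have hsplit : ∑ i, (f i x - f i x') ^ 2 =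
      ∑ i ∈ L, (f i x - f i x') ^ 2 + ∑ i ∈ Lᶜ, (f i x - f i x') ^ 2 :=
    (sum_add_sum_compl L _).symm
  rw [hsplit]
  have h1 : ∑ i ∈ L, (f i x - f i x') ^ 2 ≤ ε ^ 2 * D := by
    have h2 : ∀ i ∈ L, (f i x - f i x') ^ 2 ≤ D / (k : ℝ) ^ 2 := by
      intro i hi
      have e := hg ⟨i, hi⟩
      have b1 := hb x hx.1 i
      have b2 := hb x' hx'.1 i
      have n1 : 0 ≤ (f i x / Real.sqrt D + 1) * k := mul_nonneg (by linarith [b1.1]) hk'.le
      have n2 : 0 ≤ (f i x' / Real.sqrt D + 1) * k := mul_nonneg (by linarith [b2.1]) hk'.le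
      have e' : ⌊(f i x / Real.sqrt D + 1) * k⌋₊ = ⌊(f i x' / Real.sqrt D + 1) * k⌋₊ := e
      have f1 := Nat.floor_le n1
      have f2 := Nat.lt_floor_add_one ((f i x / Real.sqrt D + 1) * k)
      have f3 := Nat.floor_le n2
      have f4 := Nat.lt_floor_add_one ((f i x' / Real.sqrt D + 1) * k)
      rw [e'] at f1 f2
      have d1 : |(f i x / Real.sqrt D + 1) * k - (f i x' / Real.sqrt D + 1) * k| ≤ 1 := by
        rw [abs_le]; constructor <;> linarith
      have d2 : (f i x / Real.sqrt D + 1) * k - (f i x' / Real.sqrt D + 1) * k =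
          (f i x - f i x') * (k / Real.sqrt D) := by
        field_simp; ring
      rw [d2] at d1
      have d3 : ((f i x - f i x') * (k / Real.sqrt D)) ^ 2 ≤ 1 := by
        rw [← sq_abs]
        nlinarith [abs_nonneg ((f i x - f i x') * (k / Real.sqrt D))]
      have d4 : ((f i x - f i x') * (k / Real.sqrt D)) ^ 2 =
          (f i x - f i x') ^ 2 * (k ^ 2 / D) := by
        rw [mul_pow, div_pow, Real.sq_sqrt hD.le]
      rw [d4] at d3
      rw [le_div_iff₀ (by positivity)]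
      calc (f i x - f i x') ^ 2 * (k : ℝ) ^ 2 =
          ((f i x - f i x') ^ 2 * (k ^ 2 / D)) * D := by field_simp
        _ ≤ 1 * D := mul_le_mul_of_nonneg_right d3 hD.le
        _ = D := one_mul D
    calc ∑ i ∈ L, (f i x - f i x') ^ 2 ≤ ∑ i ∈ L, D / (k : ℝ) ^ 2 := sum_le_sum h2
      _ = (L.card : ℝ) * (D / (k : ℝ) ^ 2) := by rw [sum_const, nsmul_eq_mul]
      _ ≤ (N : ℝ) * (D / (k : ℝ) ^ 2) := by
          apply mul_le_mul_of_nonneg_right _ (by positivity)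
          exact_mod_cast hL
      _ = ((N : ℝ) / (k : ℝ) ^ 2) * D := by ring
      _ ≤ ε ^ 2 * D := mul_le_mul_of_nonneg_right hN hD.le
  have h2 : ∑ i ∈ Lᶜ, (f i x - f i x') ^ 2 ≤ 4 * (ε ^ 2 * D) := by
    calc ∑ i ∈ Lᶜ, (f i x - f i x') ^ 2 ≤ ∑ i ∈ Lᶜ, (2 * f i x ^ 2 + 2 * f i x' ^ 2) := by
          apply sum_le_sum
          intro i _
          nlinarith [sq_nonneg (f i x + f i x')]
      _ = 2 * ∑ i ∈ Lᶜ, f i x ^ 2 + 2 * ∑ i ∈ Lᶜ, f i x' ^ 2 := by
          rw [sum_add_distrib, mul_sum, mul_sum]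
      _ ≤ _ := by
          have := ht x hx.1
          have := ht x' hx'.1
          linarith
  linarith

/-- the average row over a set of vertices -/
theorem avg1 {V : Type} [Fintype V] {D ζ : ℝ} {A W : V → V → ℝ} (hA : Adj D A)
    (hζ : 0 ≤ ζ)
    (hcod : ∀ x y, x ≠ y → ∑ z, A x z * A y z ≤ ζ * D + 2)
    (hWs : ∀ x y, W x y = W y x)
    (hW : ∀ v : V → ℝ, nrm (fun x => ∑ y, W x y * v y) ≤ nrm (fun x => ∑ y, A x y * v y))
    (X : Finset V) (hX : 0 < X.card) (S : Finset V) :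
    ∑ y ∈ S, ((∑ x ∈ X, W x y) / (X.card : ℝ)) ^ 2 ≤ D / (X.card : ℝ) + (ζ * D + 2) := by
  have hD : 0 < D := lt_of_lt_of_le one_pos hA.one_le
  have hn : (0 : ℝ) < X.card := by exact_mod_cast hX
  set n : ℝ := (X.card : ℝ) with hn'
  let a : V → ℝ := fun x => if x ∈ X then 1 / n else 0
  have key : ∀ M : V → V → ℝ, (∀ x y, M x y = M y x) → ∀ y,
      ∑ x, M y x * a x = (∑ x ∈ X, M x y) / n := by
    intro M hM y
    have : ∀ x, M y x * a x = if x ∈ X then M x y / n else 0 := by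
      intro x
      simp only [a]
      split_ifs
      · rw [hM y x]; ring
      · ring
    simp_rw [this]
    rw [← sum_filter, filter_mem_eq_inter, univ_inter, sum_div]
  have h1 : ∑ y ∈ S, ((∑ x ∈ X, W x y) / n) ^ 2 ≤ nrm (fun x => ∑ y, W x y * a y) ^ 2 := by
    rw [nrm_sq]
    have : ∀ y, ∑ x, W y x * a x = (∑ x ∈ X, W x y) / n := key W hWs
    simp_rw [this]
    exact sum_le_sum_of_subset_of_nonneg (subset_univ S) (fun _ _ _ => sq_nonneg _)
  have h2 : nrm (fun x => ∑ y, W x y * a y) ^ 2 ≤ nrm (fun x => ∑ y, A x y * a y) ^ 2 :=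
    pow_le_pow_left₀ (nrm_nonneg _) (hW a) 2
  have h3 : nrm (fun x => ∑ y, A x y * a y) ^ 2 =
      (∑ x ∈ X, ∑ x' ∈ X, ∑ z, A x z * A x' z) / n ^ 2 := by
    rw [nrm_sq]
    have : ∀ y, ∑ x, A y x * a x = (∑ x ∈ X, A x y) / n := key A hA.symm
    simp_rw [this, div_pow]
    rw [← sum_div]
    congr 1
    have e : ∀ y, (∑ x ∈ X, A x y) ^ 2 = ∑ x ∈ X, ∑ x' ∈ X, A x y * A x' y := by
      intro y
      rw [pow_two, sum_mul_sum]
    simp_rw [e]
    rw [sum_comm]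
    exact sum_congr rfl fun x _ => sum_comm
  have h4 : ∑ x ∈ X, ∑ x' ∈ X, ∑ z, A x z * A x' z ≤ n * (D + n * (ζ * D + 2)) := by
    have h5 : ∀ x ∈ X, ∑ x' ∈ X, ∑ z, A x z * A x' z ≤ D + n * (ζ * D + 2) := by
      intro x hx
      have h6 : ∀ x' ∈ X, ∑ z, A x z * A x' z ≤ (if x' = x then D else 0) + (ζ * D + 2) := by
        intro x' _
        by_cases h : x' = x
        · subst h
          rw [if_pos rfl]
          have h7 : ∀ z, A x' z * A x' z = A x' z := by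
            intro z
            rcases hA.zo x' z with h | h <;> rw [h] <;> norm_num
          simp_rw [h7]
          have := hA.row x'
          have : 0 ≤ ζ * D := mul_nonneg hζ hD.le
          linarith
        · rw [if_neg h, zero_add]
          exact hcod x x' (Ne.symm h)
      calc _ ≤ ∑ x' ∈ X, ((if x' = x then D else 0) + (ζ * D + 2)) := sum_le_sum h6
        _ = D + n * (ζ * D + 2) := by
          rw [sum_add_distrib, sum_ite_eq' X x, if_pos hx, sum_const, nsmul_eq_mul]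
    calc _ ≤ ∑ x ∈ X, (D + n * (ζ * D + 2)) := sum_le_sum h5
      _ = _ := by rw [sum_const, nsmul_eq_mul]
  calc _ ≤ (∑ x ∈ X, ∑ x' ∈ X, ∑ z, A x z * A x' z) / n ^ 2 := by
        rw [← h3]; exact h1.trans h2
    _ ≤ (n * (D + n * (ζ * D + 2))) / n ^ 2 := by
        apply div_le_div_of_nonneg_right h4 (by positivity)
    _ = D / n + (ζ * D + 2) := by field_simp

theorem avg2 {V : Type} {W : V → V → ℝ} (X : Finset V) (hX : 0 < X.card) (S : Finset V)
    {B Q s : ℝ} (hs : 0 < s) {x : V}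
    (h1 : ∀ x' ∈ X, ∑ y ∈ S, (W x y - W x' y) ^ 2 ≤ B)
    (h2 : ∑ y ∈ S, ((∑ x' ∈ X, W x' y) / (X.card : ℝ)) ^ 2 ≤ Q) :
    ∑ y ∈ S, W x y ^ 2 ≤ (1 + s) * Q + (1 + 1 / s) * B := by
  have hn : (0 : ℝ) < X.card := by exact_mod_cast hX
  set n : ℝ := (X.card : ℝ) with hn'
  let R : V → ℝ := fun y => (∑ x' ∈ X, W x' y) / n
  have h3 : ∀ y, (W x y - R y) ^ 2 ≤ (∑ x' ∈ X, (W x y - W x' y) ^ 2) / n := by
    intro y
    have e1 : W x y - R y = (∑ x' ∈ X, (W x y - W x' y)) / n := by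
      rw [sum_sub_distrib, sum_const, nsmul_eq_mul, sub_div, ← hn', mul_div_assoc,
        mul_comm n, div_mul_cancel₀ _ hn.ne']
    rw [e1, div_pow]
    have e2 := sq_sum_le_card_mul_sum_sq (s := X) (f := fun x' => W x y - W x' y)
    rw [div_le_div_iff₀ (by positivity) hn]
    calc _ ≤ (n * ∑ x' ∈ X, (W x y - W x' y) ^ 2) * n := mul_le_mul_of_nonneg_right e2 hn.le
      _ = _ := by ring
  have h4 : ∑ y ∈ S, (W x y - R y) ^ 2 ≤ B := by
    calc _ ≤ ∑ y ∈ S, (∑ x' ∈ X, (W x y - W x' y) ^ 2) / n := sum_le_sum fun y _ => h3 y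
      _ = (∑ x' ∈ X, ∑ y ∈ S, (W x y - W x' y) ^ 2) / n := by rw [← sum_div, sum_comm]
      _ ≤ (∑ x' ∈ X, B) / n := div_le_div_of_nonneg_right (sum_le_sum h1) hn.le
      _ = B := by rw [sum_const, nsmul_eq_mul, ← hn', mul_comm, mul_div_assoc, div_self hn.ne', mul_one]
  have h5 : ∀ y, W x y ^ 2 ≤ (1 + s) * R y ^ 2 + (1 + 1 / s) * (W x y - R y) ^ 2 := by
    intro y
    have e : (1 + s) * R y ^ 2 + (1 + 1 / s) * (W x y - R y) ^ 2 - W x y ^ 2 =
        (s * R y - (W x y - R y)) ^ 2 / s := by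
      field_simp
      ring
    have : 0 ≤ (s * R y - (W x y - R y)) ^ 2 / s := by positivity
    linarith
  calc _ ≤ ∑ y ∈ S, ((1 + s) * R y ^ 2 + (1 + 1 / s) * (W x y - R y) ^ 2) :=
        sum_le_sum fun y _ => h5 y
    _ = (1 + s) * ∑ y ∈ S, R y ^ 2 + (1 + 1 / s) * ∑ y ∈ S, (W x y - R y) ^ 2 := by
        rw [sum_add_distrib, mul_sum, mul_sum]
    _ ≤ _ := by
        apply add_le_add
        · exact mul_le_mul_of_nonneg_left h2 (by positivity)
        · exact mul_le_mul_of_nonneg_left h4 (by positivity)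

end Pool.Agent.Helper85.Vu.Tw

namespace Pool.Agent.Helper85.Vu

open Finset Tw
open scoped Classical

/-- A3, twin lemma -/
theorem twin (m : ℕ) (κ β ε : ℝ) (hκ : 0 < κ) (hβ : 0 < β) (hε : 0 < ε) :
    ∃ D₀ : ℝ, ∀ (V : Type) [Fintype V] (D ζ : ℝ) (A : V → V → ℝ), D₀ ≤ D → 0 ≤ ζ → ζ ≤ 1 →
      Adj D A → (∀ x y, x ≠ y → ∑ z, A x z * A y z ≤ ζ * D + 2) →
      ∀ S : Finset V, (S.card : ℝ) ≤ κ * D →
        ((S.filter (fun x => (ζ + ε) * D < ∑ y ∈ S, Wm D A m x y ^ 2)).card : ℝ) ≤ β * D := by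
  -- constants
  set s : ℝ := ε / 4 with hs'
  have hs : 0 < s := by positivity
  set e : ℝ := (ε / 4) / (5 * (1 + 1 / s)) with he'
  have he : 0 < e := by positivity
  have hee : (1 + 1 / s) * (5 * e) = ε / 4 := by
    rw [he']; field_simp
  set τ' : ℝ := β * e / (2 * (2 ^ m * κ)) with hτ''
  have hτ' : 0 < τ' := by positivity
  have hτe : τ' * (2 ^ m * κ) = β * e / 2 := by
    rw [hτ'']; field_simp
  set N : ℕ := ⌊2 ^ m * κ / τ'⌋₊ with hN
  set k : ℕ := ⌈(N : ℝ) / e⌉₊ + 1 with hk'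
  have hk : 0 < k := Nat.succ_pos _
  have hkN : (N : ℝ) / (k : ℝ) ^ 2 ≤ Real.sqrt e ^ 2 := by
    rw [Real.sq_sqrt he.le]
    have h1 : (N : ℝ) / e ≤ k := by
      have := Nat.le_ceil ((N : ℝ) / e)
      rw [hk']; push_cast; linarith
    have h2 : (1 : ℝ) ≤ k := by exact_mod_cast hk
    have h3 : (N : ℝ) ≤ k * e := by rwa [div_le_iff₀ he] at h1
    rw [div_le_iff₀ (by positivity)]
    calc (N : ℝ) ≤ k * e := h3
      _ ≤ k ^ 2 * e := by
          apply mul_le_mul_of_nonneg_right _ he.le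
          nlinarith
      _ = e * (k : ℝ) ^ 2 := mul_comm _ _
  set c : ℝ := β / (2 * ((2 * k + 1 : ℕ) : ℝ) ^ N) with hc'
  have hc : 0 < c := by positivity
  refine ⟨4 * ((1 + s) * (2 + 1 / c)) / ε, ?_⟩
  intro V _ D ζ A hD0 hζ hζ1 hA hcod S hS
  have hD : 0 < D := lt_of_lt_of_le one_pos hA.one_le
  obtain ⟨-, hWs, hWn, -, -⟩ := spectral hA
  have hWs := hWs m
  have hWn := hWn m
  obtain ⟨ι, _, b, σ, h0, h1, h2, h3⟩ := eig S (fun x y => Wm D A m x y) hWs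
  have htr : ∑ i, |σ i| ≤ 2 ^ m * κ * D := by
    refine (trace_le hA m h0 h1 h2 h3).trans ?_
    calc (2 : ℝ) ^ m * (S.card : ℝ) ≤ 2 ^ m * (κ * D) :=
          mul_le_mul_of_nonneg_left hS (by positivity)
      _ = _ := by ring
  -- rows
  have hrow : ∀ x, ∑ y, Wm D A m x y ^ 2 ≤ D := by
    intro x
    have a1 := hWn (fun y => if y = x then 1 else 0)
    have a2 := pow_le_pow_left₀ (nrm_nonneg _) a1 2
    rw [nrm_sq, nrm_sq] at a2
    have a3 : ∀ (M : V → V → ℝ) (z : V), ∑ y, M z y * (if y = x then (1 : ℝ) else 0) = M z x := by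
      intro M z
      simp
    simp_rw [a3 (fun x y => Wm D A m x y), a3 A] at a2
    calc ∑ y, Wm D A m x y ^ 2 = ∑ y, Wm D A m y x ^ 2 :=
          sum_congr rfl fun y _ => by rw [hWs x y]
      _ ≤ ∑ y, A y x ^ 2 := a2
      _ = ∑ y, A x y := by
          apply sum_congr rfl
          intro y _
          rw [hA.symm y x]
          rcases hA.zo x y with h | h <;> rw [h] <;> norm_num
      _ ≤ D := hA.row x
  let f : ι → V → ℝ := fun i x => σ i * b i x
  have hf : ∀ x ∈ S, ∀ i, f i x ^ 2 ≤ D := by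
    intro x hx i
    calc f i x ^ 2 ≤ ∑ j, f j x ^ 2 :=
          single_le_sum (f := fun j => f j x ^ 2) (fun j _ => sq_nonneg _) (mem_univ i)
      _ = ∑ y ∈ S, Wm D A m x y ^ 2 := (row_eq h1 h3 hx).symm
      _ ≤ ∑ y, Wm D A m x y ^ 2 :=
          sum_le_sum_of_subset_of_nonneg (subset_univ S) (fun _ _ _ => sq_nonneg _)
      _ ≤ D := hrow x
  -- large eigenvalues
  let L : Finset ι := univ.filter (fun i => τ' * D ≤ |σ i|)
  have hLcard : L.card ≤ N := by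
    apply Nat.le_floor
    rw [le_div_iff₀ hτ']
    have a1 : (L.card : ℝ) * (τ' * D) ≤ 2 ^ m * κ * D := by
      calc (L.card : ℝ) * (τ' * D) = ∑ i ∈ L, τ' * D := by rw [sum_const, nsmul_eq_mul]
        _ ≤ ∑ i ∈ L, |σ i| := sum_le_sum fun i hi => (mem_filter.1 hi).2
        _ ≤ ∑ i, |σ i| :=
            sum_le_sum_of_subset_of_nonneg (subset_univ L) (fun _ _ _ => abs_nonneg _)
        _ ≤ _ := htr
    have a2 : (L.card : ℝ) * τ' * D ≤ 2 ^ m * κ * D := by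
      calc _ = (L.card : ℝ) * (τ' * D) := by ring
        _ ≤ _ := a1
    exact le_of_mul_le_mul_right a2 hD
  -- tails
  let t : V → ℝ := fun x => ∑ i ∈ Lᶜ, f i x ^ 2
  have ht0 : ∀ x, 0 ≤ t x := fun x => sum_nonneg fun _ _ => sq_nonneg _
  have htail : ∑ x ∈ S, t x ≤ (β * D / 2) * (e * D) := by
    have a1 : ∑ x ∈ S, t x = ∑ i ∈ Lᶜ, σ i ^ 2 := by
      simp only [t, f]
      rw [sum_comm]
      apply sum_congr rfl
      intro i _
      have : ∀ x ∈ S, (σ i * b i x) ^ 2 = σ i ^ 2 * (b i x * b i x) := fun x _ => by ring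
      rw [sum_congr rfl this, ← mul_sum, h2 i i, if_pos rfl, mul_one]
    rw [a1]
    have a2 : ∀ i ∈ Lᶜ, σ i ^ 2 ≤ τ' * D * |σ i| := by
      intro i hi
      have : ¬ (τ' * D ≤ |σ i|) := by
        intro h
        exact (mem_compl.1 hi) (mem_filter.2 ⟨mem_univ _, h⟩)
      push Not at this
      rw [← sq_abs, pow_two]
      exact mul_le_mul_of_nonneg_right this.le (abs_nonneg _)
    calc ∑ i ∈ Lᶜ, σ i ^ 2 ≤ ∑ i ∈ Lᶜ, τ' * D * |σ i| := sum_le_sum a2
      _ ≤ ∑ i, τ' * D * |σ i| :=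
          sum_le_sum_of_subset_of_nonneg (subset_univ _)
            (fun _ _ _ => mul_nonneg (by positivity) (abs_nonneg _))
      _ = τ' * D * ∑ i, |σ i| := by rw [mul_sum]
      _ ≤ τ' * D * (2 ^ m * κ * D) := mul_le_mul_of_nonneg_left htr (by positivity)
      _ = (τ' * (2 ^ m * κ)) * D ^ 2 := by ring
      _ = (β * D / 2) * (e * D) := by rw [hτe]; ring
  let TL : Finset V := S.filter (fun x => e * D < t x)
  have hTL : (TL.card : ℝ) ≤ β * D / 2 := by
    have a1 : (TL.card : ℝ) * (e * D) ≤ (β * D / 2) * (e * D) := by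
      calc (TL.card : ℝ) * (e * D) = ∑ x ∈ TL, e * D := by rw [sum_const, nsmul_eq_mul]
        _ ≤ ∑ x ∈ TL, t x := sum_le_sum fun x hx => (mem_filter.1 hx).2.le
        _ ≤ ∑ x ∈ S, t x :=
            sum_le_sum_of_subset_of_nonneg (filter_subset _ _) (fun x _ _ => ht0 x)
        _ ≤ _ := htail
    exact le_of_mul_le_mul_right a1 (by positivity)
  -- contradiction
  by_contra hcon
  push Not at hcon
  set Ex : Finset V := S.filter (fun x => (ζ + ε) * D < ∑ y ∈ S, Wm D A m x y ^ 2) with hEx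
  let X0 : Finset V := Ex \ TL
  have hX0 : β * D / 2 < (X0.card : ℝ) := by
    have a1 : Ex.card ≤ X0.card + TL.card := by
      have := card_le_card_sdiff_add_card (s := Ex) (t := TL)
      exact this
    have a2 : (Ex.card : ℝ) ≤ X0.card + TL.card := by exact_mod_cast a1
    linarith
  have hX0S : ∀ x ∈ X0, x ∈ S := fun x hx => (mem_filter.1 (mem_sdiff.1 hx).1).1
  have hX0t : ∀ x ∈ X0, ∑ i ∈ Lᶜ, f i x ^ 2 ≤ Real.sqrt e ^ 2 * D := by
    intro x hx
    rw [Real.sq_sqrt he.le]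
    by_contra h
    push Not at h
    exact (mem_sdiff.1 hx).2 (mem_filter.2 ⟨hX0S x hx, h⟩)
  have hcD : ((2 * k + 1 : ℕ) : ℝ) ^ N * (c * D) < (X0.card : ℝ) := by
    have : ((2 * k + 1 : ℕ) : ℝ) ^ N * (c * D) = β * D / 2 := by
      rw [hc']
      have : ((2 * k + 1 : ℕ) : ℝ) ^ N ≠ 0 := by positivity
      field_simp
    rw [this]; exact hX0
  obtain ⟨X', hX'sub, hX'card, hX'⟩ := core X0 f L hD hc hk hLcard hkN
    (fun x hx i => hf x (hX0S x hx) i) hX0t hcD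
  have hcDpos : 0 < c * D := by positivity
  have hX'pos' : (0 : ℝ) < X'.card := hcDpos.trans hX'card
  have hX'pos : 0 < X'.card := by exact_mod_cast hX'pos'
  obtain ⟨x, hx⟩ := card_pos.1 hX'pos
  have hxS : x ∈ S := hX0S x (hX'sub hx)
  have hxE : (ζ + ε) * D < ∑ y ∈ S, Wm D A m x y ^ 2 :=
    (mem_filter.1 (mem_sdiff.1 (hX'sub hx)).1).2
  have b1 : ∀ x' ∈ X', ∑ y ∈ S, (Wm D A m x y - Wm D A m x' y) ^ 2 ≤ 5 * e * D := by
    intro x' hx'
    have := hX' x hx x' hx'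
    rw [Real.sq_sqrt he.le] at this
    rw [diff_eq (W := fun x y => Wm D A m x y) h1 h3 hxS (hX0S x' (hX'sub hx'))]
    exact this
  have b2 := avg1 (W := fun x y => Wm D A m x y) hA hζ hcod hWs hWn X' hX'pos S
  have b3 := avg2 (W := fun x y => Wm D A m x y) X' hX'pos S hs b1 b2
  have b4 : D / (X'.card : ℝ) ≤ 1 / c := by
    rw [div_le_div_iff₀ hX'pos' hc]
    linarith
  have b5 : (1 + s) * (2 + 1 / c) ≤ ε / 4 * D := by
    rw [div_le_iff₀ hε] at hD0
    linarith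
  have b6 : (1 + s) * (D / (X'.card : ℝ) + (ζ * D + 2)) ≤
      (1 + s) * (ζ * D) + (1 + s) * (2 + 1 / c) := by
    have : 0 < 1 + s := by positivity
    nlinarith
  have b7 : (1 + s) * (ζ * D) ≤ ζ * D + s * D := by
    have : ζ * D ≤ 1 * D := mul_le_mul_of_nonneg_right hζ1 hD.le
    nlinarith
  have b8 : (1 + 1 / s) * (5 * e * D) = ε / 4 * D := by
    rw [← hee]; ring
  have b9 : s * D = ε / 4 * D := by rw [hs']
  have b10 : 0 < ε * D := by positivity
  have b3' : ∑ y ∈ S, Wm D A m x y ^ 2 ≤ (1 + s) * (D / (X'.card : ℝ) + (ζ * D + 2)) +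
    (1 + 1 / s) * (5 * e * D) := b3
  linarith

end Pool.Agent.Helper85.Vu
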