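import Pool.Agent.Helper85.Vu.A1
import Pool.Agent.Helper85.Vu.A2

/-!
Block A4: the noise lemma.
-/

set_option linter.unusedVariables false

namespace Pool.Agent.Helper85.Vu

open Finset
open scoped Classical

namespace A4

/-- Cauchy-Schwarz for a bilinear form with arbitrary coefficients -/
theorem cs {V : Type} (S : Finset V) (h b : V → ℝ) (r : V → V → ℝ) :
    |∑ x ∈ S, ∑ y ∈ S, h x * b y * r x y| ≤
      Real.sqrt (∑ x ∈ S, ∑ y ∈ S, r x y ^ 2) * Real.sqrt (∑ x ∈ S, h x ^ 2) *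
        Real.sqrt (∑ y ∈ S, b y ^ 2) := by
  have h1 : (∑ x ∈ S, ∑ y ∈ S, h x * b y * r x y) ^ 2 ≤
      (∑ x ∈ S, ∑ y ∈ S, r x y ^ 2) * ((∑ x ∈ S, h x ^ 2) * (∑ y ∈ S, b y ^ 2)) := by
    have h2 := Finset.sum_mul_sq_le_sq_mul_sq (S ×ˢ S) (fun p : V × V => h p.1 * b p.2)
      (fun p : V × V => r p.1 p.2)
    rw [Finset.sum_product, Finset.sum_product, Finset.sum_product] at h2
    have h3 : ∑ x ∈ S, ∑ y ∈ S, (h x * b y) ^ 2 = (∑ x ∈ S, h x ^ 2) * (∑ y ∈ S, b y ^ 2) := by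
      rw [Finset.sum_mul_sum]
      exact Finset.sum_congr rfl fun x _ => Finset.sum_congr rfl fun y _ => by ring
    simp only at h2
    rw [h3] at h2
    rw [mul_comm (∑ x ∈ S, ∑ y ∈ S, r x y ^ 2)]
    exact h2
  have h4 := Real.abs_le_sqrt h1
  rw [Real.sqrt_mul (Finset.sum_nonneg fun x _ => Finset.sum_nonneg fun y _ => sq_nonneg _),
    Real.sqrt_mul (Finset.sum_nonneg fun x _ => sq_nonneg _)] at h4
  rw [mul_assoc]
  exact h4

/-- columns of `A - W'` -/
theorem col_sq {V : Type} [Fintype V] {D : ℝ} {A : V → V → ℝ} (hA : Adj D A) (m' : ℕ) (y : V) :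
    ∑ x, (A x y - Wm D A m' x y) ^ 2 ≤ D := by
  have h1 := (spectral hA).2.2.2.1 m' (Pi.single y 1)
  have h2 : ∀ (M : V → V → ℝ), (fun x => ∑ z, M x z * (Pi.single y 1 : V → ℝ) z) =
      fun x => M x y := by
    intro M
    funext x
    rw [Finset.sum_eq_single y (fun z _ hz => by rw [Pi.single_eq_of_ne hz, mul_zero])
      (fun h => absurd (Finset.mem_univ _) h), Pi.single_eq_same, mul_one]
  rw [h2 (fun x z => A x z - Wm D A m' x z), h2 A] at h1
  unfold nrm at h1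
  have h3 : ∑ x, A x y ^ 2 ≤ D := by
    calc ∑ x, A x y ^ 2 = ∑ x, A y x := by
          refine Finset.sum_congr rfl fun x _ => ?_
          rw [hA.symm x y]
          rcases hA.zo y x with h | h <;> rw [h] <;> norm_num
      _ ≤ D := hA.row y
  have h4 : ∑ x, (A x y - Wm D A m' x y) ^ 2 ≤ ∑ x, A x y ^ 2 :=
    (Real.sqrt_le_sqrt_iff (Finset.sum_nonneg fun x _ => sq_nonneg _)).mp h1
  exact h4.trans h3

theorem hs_sq {V : Type} [Fintype V] {D κ : ℝ} {A : V → V → ℝ} (hA : Adj D A) (m' : ℕ)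
    (S : Finset V) (hS : (S.card : ℝ) ≤ κ * D) :
    ∑ x ∈ S, ∑ y ∈ S, (A x y - Wm D A m' x y) ^ 2 ≤ κ * D ^ 2 := by
  have hD : 1 ≤ D := hA.one_le
  rw [Finset.sum_comm]
  calc ∑ y ∈ S, ∑ x ∈ S, (A x y - Wm D A m' x y) ^ 2 ≤ ∑ y ∈ S, D := by
        refine Finset.sum_le_sum fun y _ => ?_
        exact (Finset.sum_le_univ_sum_of_nonneg fun x => sq_nonneg _).trans (col_sq hA m' y)
    _ = S.card * D := by rw [Finset.sum_const, nsmul_eq_mul]
    _ ≤ (κ * D) * D := by gcongr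
    _ = κ * D ^ 2 := by ring

/-- the form with a monomial in `W` -/
theorem mono_bound {V : Type} [Fintype V] {D : ℝ} {A : V → V → ℝ} (hA : Adj D A) (m m' k : ℕ)
    (hm' : 1 ≤ m') (S : Finset V) (h b : V → ℝ) :
    |∑ x ∈ S, ∑ y ∈ S, h x * b y * ((A x y - Wm D A m' x y) * Wm D A m x y ^ k)| ≤
      (D / Real.sqrt m' * (2 ^ m) ^ k) * (Real.sqrt (∑ x ∈ S, h x ^ 2) *
        Real.sqrt (∑ y ∈ S, b y ^ 2)) := by
  have hD : 1 ≤ D := hA.one_le
  have h1 := entrywise hA m k (M := fun x y => A x y - Wm D A m' x y)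
    (μ := D / Real.sqrt m') (by positivity) ((spectral hA).1 m' hm')
    (fun x => if x ∈ S then h x else 0) (fun y => if y ∈ S then b y else 0)
  have h2 : ∀ f : V → ℝ, nrm (fun x => if x ∈ S then f x else 0) =
      Real.sqrt (∑ x ∈ S, f x ^ 2) := by
    intro f
    unfold nrm
    congr 1
    rw [← Finset.sum_filter_add_sum_filter_not Finset.univ (fun x => x ∈ S)]
    rw [Finset.sum_congr rfl (g := fun x => f x ^ 2) (fun x hx => by
      show (if x ∈ S then f x else 0) ^ 2 = f x ^ 2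
      rw [if_pos (Finset.mem_filter.mp hx).2])]
    rw [Finset.sum_eq_zero (s := Finset.univ.filter fun x => ¬ x ∈ S) (fun x hx => by
      show (if x ∈ S then f x else 0) ^ 2 = 0
      rw [if_neg (Finset.mem_filter.mp hx).2]; norm_num), add_zero]
    congr 1
    ext x
    simp
  have h3 : ∑ x, ∑ y, (if x ∈ S then h x else 0) *
      ((A x y - Wm D A m' x y) * Wm D A m x y ^ k) * (if y ∈ S then b y else 0) =
      ∑ x ∈ S, ∑ y ∈ S, h x * b y * ((A x y - Wm D A m' x y) * Wm D A m x y ^ k) := by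
    have h4 : ∀ F : V → ℝ, (∀ x, x ∉ S → F x = 0) → ∑ x, F x = ∑ x ∈ S, F x := by
      intro F hF
      symm
      apply Finset.sum_subset (Finset.subset_univ S)
      intro x _ hx
      exact hF x hx
    rw [h4 _ (fun x hx => by
      refine Finset.sum_eq_zero fun y _ => ?_
      rw [if_neg hx]; ring)]
    refine Finset.sum_congr rfl fun x hx => ?_
    rw [h4 _ (fun y hy => by rw [if_neg hy, mul_zero])]
    refine Finset.sum_congr rfl fun y hy => ?_
    rw [if_pos hx, if_pos hy]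
    ring
  rw [h2, h2] at h1
  rw [← h3, ← mul_assoc]
  exact h1

/-- the form with a continuous function of `W` -/
theorem approx_bound (m : ℕ) (κ e : ℝ) (hκ : 0 < κ) (he : 0 < e) (q : ℝ → ℝ)
    (hq : Continuous q) :
    ∃ M : ℕ, ∀ m' : ℕ, M ≤ m' → ∀ (V : Type) [Fintype V] (D : ℝ) (A : V → V → ℝ), Adj D A →
      ∀ S : Finset V, (S.card : ℝ) ≤ κ * D → ∀ h b : V → ℝ,
      |∑ x ∈ S, ∑ y ∈ S, h x * b y * ((A x y - Wm D A m' x y) * q (Wm D A m x y))| ≤
        e * D * (Real.sqrt (∑ x ∈ S, h x ^ 2) * Real.sqrt (∑ y ∈ S, b y ^ 2)) := by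
  set e4 : ℝ := e / (2 * Real.sqrt κ) with he4
  have hsκ : 0 < Real.sqrt κ := Real.sqrt_pos.mpr hκ
  have he40 : 0 < e4 := by positivity
  obtain ⟨p, hp⟩ := exists_polynomial_near_of_continuousOn (-(2 ^ m : ℝ)) (2 ^ m : ℝ) q
    hq.continuousOn e4 he40
  set Cp : ℝ := ∑ k ∈ Finset.range (p.natDegree + 1), |p.coeff k| * (2 ^ m) ^ k with hCp
  have hCp0 : 0 ≤ Cp := Finset.sum_nonneg fun k _ => by positivity
  obtain ⟨M, hM⟩ := exists_nat_ge ((2 * Cp / e) ^ 2)
  refine ⟨M + 1, fun m' hm' V _ D A hA S hS h b => ?_⟩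
  have hD : 1 ≤ D := hA.one_le
  have hm1 : 1 ≤ m' := by omega
  have hm'0 : (0 : ℝ) < m' := by exact_mod_cast hm1
  have hsq : 0 < Real.sqrt m' := Real.sqrt_pos.mpr hm'0
  have hCm : Cp / Real.sqrt m' ≤ e / 2 := by
    rw [div_le_iff₀ hsq]
    have h1 : 2 * Cp / e ≤ Real.sqrt m' := by
      apply Real.le_sqrt_of_sq_le
      refine hM.trans ?_
      exact_mod_cast (by omega : M ≤ m')
    rw [div_le_iff₀ he] at h1
    linarith
  obtain ⟨N, hN⟩ : ∃ N, N = Real.sqrt (∑ x ∈ S, h x ^ 2) * Real.sqrt (∑ y ∈ S, b y ^ 2) :=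
    ⟨_, rfl⟩
  have hN0 : 0 ≤ N := by rw [hN]; positivity
  rw [← hN]
  have hsplit : ∑ x ∈ S, ∑ y ∈ S, h x * b y * ((A x y - Wm D A m' x y) * q (Wm D A m x y)) =
      (∑ k ∈ Finset.range (p.natDegree + 1), p.coeff k *
        ∑ x ∈ S, ∑ y ∈ S, h x * b y * ((A x y - Wm D A m' x y) * Wm D A m x y ^ k)) +
      ∑ x ∈ S, ∑ y ∈ S, h x * b y * ((A x y - Wm D A m' x y) *
        (q (Wm D A m x y) - p.eval (Wm D A m x y))) := by
    have h1 : ∑ k ∈ Finset.range (p.natDegree + 1), p.coeff k *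
        ∑ x ∈ S, ∑ y ∈ S, h x * b y * ((A x y - Wm D A m' x y) * Wm D A m x y ^ k) =
        ∑ x ∈ S, ∑ y ∈ S, h x * b y * ((A x y - Wm D A m' x y) * p.eval (Wm D A m x y)) := by
      simp only [Finset.mul_sum]
      rw [Finset.sum_comm]
      refine Finset.sum_congr rfl fun x _ => ?_
      rw [Finset.sum_comm]
      refine Finset.sum_congr rfl fun y _ => ?_
      rw [Polynomial.eval_eq_sum_range, Finset.mul_sum, Finset.mul_sum]
      exact Finset.sum_congr rfl fun k _ => by ring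
    rw [h1, ← Finset.sum_add_distrib]
    refine Finset.sum_congr rfl fun x _ => ?_
    rw [← Finset.sum_add_distrib]
    exact Finset.sum_congr rfl fun y _ => by ring
  rw [hsplit]
  refine (abs_add_le _ _).trans ?_
  have hfirst : |∑ k ∈ Finset.range (p.natDegree + 1), p.coeff k *
        ∑ x ∈ S, ∑ y ∈ S, h x * b y * ((A x y - Wm D A m' x y) * Wm D A m x y ^ k)| ≤
        e / 2 * D * N := by
    calc |∑ k ∈ Finset.range (p.natDegree + 1), p.coeff k *
        ∑ x ∈ S, ∑ y ∈ S, h x * b y * ((A x y - Wm D A m' x y) * Wm D A m x y ^ k)| ≤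
        ∑ k ∈ Finset.range (p.natDegree + 1), |p.coeff k *
        ∑ x ∈ S, ∑ y ∈ S, h x * b y * ((A x y - Wm D A m' x y) * Wm D A m x y ^ k)| :=
          Finset.abs_sum_le_sum_abs _ _
      _ ≤ ∑ k ∈ Finset.range (p.natDegree + 1), |p.coeff k| *
          ((D / Real.sqrt m' * (2 ^ m) ^ k) * N) := by
          refine Finset.sum_le_sum fun k _ => ?_
          rw [abs_mul, hN]
          exact mul_le_mul_of_nonneg_left (mono_bound hA m m' k hm1 S h b) (abs_nonneg _)
      _ = Cp / Real.sqrt m' * D * N := by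
          rw [hCp, Finset.sum_div, Finset.sum_mul, Finset.sum_mul]
          exact Finset.sum_congr rfl fun k _ => by ring
      _ ≤ e / 2 * D * N := by gcongr
  have hsecond : |∑ x ∈ S, ∑ y ∈ S, h x * b y * ((A x y - Wm D A m' x y) *
        (q (Wm D A m x y) - p.eval (Wm D A m x y)))| ≤ e / 2 * D * N := by
    refine (cs S h b _).trans ?_
    rw [mul_assoc, ← hN]
    apply mul_le_mul_of_nonneg_right _ hN0
    have h1 : ∑ x ∈ S, ∑ y ∈ S, ((A x y - Wm D A m' x y) *
        (q (Wm D A m x y) - p.eval (Wm D A m x y))) ^ 2 ≤ e4 ^ 2 * (κ * D ^ 2) := by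
      calc ∑ x ∈ S, ∑ y ∈ S, ((A x y - Wm D A m' x y) *
          (q (Wm D A m x y) - p.eval (Wm D A m x y))) ^ 2 ≤
          ∑ x ∈ S, ∑ y ∈ S, e4 ^ 2 * (A x y - Wm D A m' x y) ^ 2 := by
            refine Finset.sum_le_sum fun x _ => Finset.sum_le_sum fun y _ => ?_
            rw [mul_pow, mul_comm]
            apply mul_le_mul_of_nonneg_right _ (sq_nonneg _)
            have h2 : |p.eval (Wm D A m x y) - q (Wm D A m x y)| < e4 :=
              hp _ (abs_le.mp (abs_Wm_le hA m x y))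
            rw [abs_sub_comm] at h2
            exact sq_le_sq' (by linarith [(abs_lt.mp h2).1]) (abs_lt.mp h2).2.le
        _ = e4 ^ 2 * ∑ x ∈ S, ∑ y ∈ S, (A x y - Wm D A m' x y) ^ 2 := by
            simp only [Finset.mul_sum]
        _ ≤ e4 ^ 2 * (κ * D ^ 2) := by
            gcongr
            exact hs_sq hA m' S hS
    calc Real.sqrt (∑ x ∈ S, ∑ y ∈ S, ((A x y - Wm D A m' x y) *
          (q (Wm D A m x y) - p.eval (Wm D A m x y))) ^ 2) ≤
          Real.sqrt (e4 ^ 2 * (κ * D ^ 2)) := Real.sqrt_le_sqrt h1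
      _ = e4 * (Real.sqrt κ * D) := by
          rw [Real.sqrt_mul (sq_nonneg _), Real.sqrt_sq he40.le, Real.sqrt_mul hκ.le,
            Real.sqrt_sq (by linarith)]
      _ = e / 2 * D := by
          rw [he4]
          field_simp
  calc _ ≤ e / 2 * D * N + e / 2 * D * N := add_le_add hfirst hsecond
    _ = e * D * N := by ring

theorem continuous_clip : Continuous clip := by
  unfold clip
  fun_prop

theorem continuous_cut (τ : ℝ) : Continuous (cut τ) := by
  unfold cut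
  have := continuous_clip
  fun_prop

theorem clip_nonneg (w : ℝ) : 0 ≤ clip w := le_max_left _ _

theorem clip_le (w : ℝ) : clip w ≤ 1 := max_le zero_le_one (min_le_left _ _)

theorem cut_nonneg (τ w : ℝ) : 0 ≤ cut τ w := le_max_left _ _

theorem cut_le (τ w : ℝ) : cut τ w ≤ 1 :=
  max_le zero_le_one ((min_le_left _ _).trans (clip_le w))

theorem sq_clip_le (w a : ℝ) (ha : a = 0 ∨ a = 1) :
    (w - clip w) ^ 2 ≤ (w - a) * (w - clip w) := by
  have h : 0 ≤ (w - clip w) * (clip w - a) := by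
    unfold clip
    rcases le_total w 0 with h0 | h0
    · have h1 : max 0 (min 1 w) = 0 := max_eq_left ((min_le_right _ _).trans h0)
      rw [h1]
      rcases ha with rfl | rfl
      · simp
      · nlinarith
    · rcases le_total w 1 with h1 | h1
      · have h2 : max 0 (min 1 w) = w := by rw [min_eq_right h1, max_eq_right h0]
        rw [h2]; simp
      · have h2 : max 0 (min 1 w) = 1 := by rw [min_eq_left h1, max_eq_right zero_le_one]
        rw [h2]
        rcases ha with rfl | rfl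
        · nlinarith
        · simp
  nlinarith

end A4

open A4 in
/-- A4, noise lemma -/
theorem noise (τ κ ε : ℝ) (hτ : 0 < τ) (hκ : 0 < κ) (hε : 0 < ε) (m : ℕ) :
    ∃ M : ℕ, ∀ m' : ℕ, M ≤ m' → ∀ (V : Type) [Fintype V] (D : ℝ) (A : V → V → ℝ), Adj D A →
      ∀ S : Finset V, (S.card : ℝ) ≤ κ * D →
        ∑ x ∈ S, ∑ y ∈ S, (Wm D A m' x y - Wm D A m x y) ^ 2 ≤ (ε / 16) ^ 2 * D ^ 2 →
        NoiseOK ε D A (fun x y => clip (Wm D A m x y)) (fun x y => cut τ (Wm D A m x y)) S := by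
  obtain ⟨M1, hM1⟩ := approx_bound m κ (ε / 4) hκ (by positivity) (fun w => 1 + cut τ w)
    (continuous_const.add (continuous_cut τ))
  obtain ⟨M2, hM2⟩ := approx_bound m κ ((ε / 8) ^ 2 / κ) hκ (by positivity)
    (fun w => w - clip w) (continuous_id.sub continuous_clip)
  refine ⟨max M1 M2, fun m' hm' V _ D A hA S hS hWW h b => ?_⟩
  have hD : 1 ≤ D := hA.one_le
  have hD0 : 0 < D := by linarith
  have h1 := hM1 m' ((le_max_left _ _).trans hm') V D A hA S hS
  have h2 := hM2 m' ((le_max_right _ _).trans hm') V D A hA S hS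
  obtain ⟨N, hN⟩ : ∃ N, N = Real.sqrt (∑ x ∈ S, h x ^ 2) * Real.sqrt (∑ y ∈ S, b y ^ 2) :=
    ⟨_, rfl⟩
  have hN0 : 0 ≤ N := by rw [hN]; positivity
  -- the square of the overshoot
  obtain ⟨G2, hG2⟩ : ∃ G2, G2 = ∑ x ∈ S, ∑ y ∈ S, (Wm D A m x y - clip (Wm D A m x y)) ^ 2 :=
    ⟨_, rfl⟩
  have hG20 : 0 ≤ G2 := by
    rw [hG2]
    exact Finset.sum_nonneg fun x _ => Finset.sum_nonneg fun y _ => sq_nonneg _
  have hG : Real.sqrt G2 ≤ 3 * ε / 16 * D := by
    have h3 : G2 ≤ ∑ x ∈ S, ∑ y ∈ S, (Wm D A m x y - A x y) *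
        (Wm D A m x y - clip (Wm D A m x y)) := by
      rw [hG2]
      exact Finset.sum_le_sum fun x _ => Finset.sum_le_sum fun y _ =>
        sq_clip_le _ _ (hA.zo x y)
    have h4 : ∑ x ∈ S, ∑ y ∈ S, (Wm D A m x y - A x y) *
        (Wm D A m x y - clip (Wm D A m x y)) =
        (∑ x ∈ S, ∑ y ∈ S, (Wm D A m x y - Wm D A m' x y) *
          (Wm D A m x y - clip (Wm D A m x y))) -
        ∑ x ∈ S, ∑ y ∈ S, (1 : ℝ) * 1 * ((A x y - Wm D A m' x y) *
          (Wm D A m x y - clip (Wm D A m x y))) := by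
      rw [← Finset.sum_sub_distrib]
      refine Finset.sum_congr rfl fun x _ => ?_
      rw [← Finset.sum_sub_distrib]
      exact Finset.sum_congr rfl fun y _ => by ring
    have h5 := h2 (fun _ => 1) (fun _ => 1)
    have h6 : Real.sqrt (∑ x ∈ S, (1 : ℝ) ^ 2) * Real.sqrt (∑ y ∈ S, (1 : ℝ) ^ 2) = S.card := by
      rw [Real.mul_self_sqrt (Finset.sum_nonneg fun x _ => by norm_num)]
      simp
    simp only at h5
    rw [h6] at h5
    have h7 : (ε / 8) ^ 2 / κ * D * S.card ≤ (ε / 8) ^ 2 * D ^ 2 := by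
      calc (ε / 8) ^ 2 / κ * D * S.card ≤ (ε / 8) ^ 2 / κ * D * (κ * D) := by gcongr
        _ = _ := by field_simp
    have h8 : ∑ x ∈ S, ∑ y ∈ S, (Wm D A m x y - Wm D A m' x y) *
          (Wm D A m x y - clip (Wm D A m x y)) ≤ ε / 16 * D * Real.sqrt G2 := by
      have h9 : (∑ x ∈ S, ∑ y ∈ S, (Wm D A m x y - Wm D A m' x y) *
          (Wm D A m x y - clip (Wm D A m x y))) ^ 2 ≤ ((ε / 16) ^ 2 * D ^ 2) * G2 := by
        have h10 := Finset.sum_mul_sq_le_sq_mul_sq (S ×ˢ S)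
          (fun p : V × V => Wm D A m p.1 p.2 - Wm D A m' p.1 p.2)
          (fun p : V × V => Wm D A m p.1 p.2 - clip (Wm D A m p.1 p.2))
        rw [Finset.sum_product, Finset.sum_product, Finset.sum_product] at h10
        refine h10.trans ?_
        rw [hG2]
        apply mul_le_mul_of_nonneg_right _ (Finset.sum_nonneg fun x _ =>
          Finset.sum_nonneg fun y _ => sq_nonneg _)
        refine le_trans (le_of_eq ?_) hWW
        exact Finset.sum_congr rfl fun x _ => Finset.sum_congr rfl fun y _ => by ring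
      have h11 := Real.le_sqrt_of_sq_le h9
      rw [Real.sqrt_mul (by positivity), Real.sqrt_mul (sq_nonneg _),
        Real.sqrt_sq (by positivity), Real.sqrt_sq hD0.le] at h11
      exact h11
    have h12 : G2 ≤ ε / 16 * D * Real.sqrt G2 + (ε / 8) ^ 2 * D ^ 2 := by
      have h13 := (abs_le.mp h5).1
      rw [h4] at h3
      revert h3 h8 h13 h7
      generalize ∑ x ∈ S, ∑ y ∈ S, (1 : ℝ) * 1 * ((A x y - Wm D A m' x y) *
          (Wm D A m x y - clip (Wm D A m x y))) = Z1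
      generalize ∑ x ∈ S, ∑ y ∈ S, (Wm D A m x y - Wm D A m' x y) *
          (Wm D A m x y - clip (Wm D A m x y)) = Z2
      generalize (ε / 8) ^ 2 / κ * D * (S.card : ℝ) = Z3
      generalize ε / 16 * D * Real.sqrt G2 = Z4
      intro h7 h8 h3 h13
      linarith
    -- solve the quadratic inequality
    have hs := Real.sq_sqrt hG20
    have hs0 := Real.sqrt_nonneg G2
    by_contra hcon
    push Not at hcon
    have hx : ε / 16 * D * Real.sqrt G2 + (ε / 8) ^ 2 * D ^ 2 < Real.sqrt G2 ^ 2 := by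
      have e1 : 0 < ε * D := by positivity
      have e2 : 0 < (Real.sqrt G2 - 3 * ε / 16 * D) * (Real.sqrt G2 + ε / 8 * D) :=
        mul_pos (by linarith) (by positivity)
      have e3 : 0 < (ε * D) * (ε * D) := mul_pos e1 e1
      have e4 : Real.sqrt G2 ^ 2 - (ε / 16 * D * Real.sqrt G2 + (ε / 8) ^ 2 * D ^ 2) =
          (Real.sqrt G2 - 3 * ε / 16 * D) * (Real.sqrt G2 + ε / 8 * D) +
            1 / 128 * ((ε * D) * (ε * D)) := by ring
      linarith
    linarith
  -- decomposition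
  have hsplit : ∑ x ∈ S, ∑ y ∈ S, h x * b y * nz A (fun x y => clip (Wm D A m x y))
      (fun x y => cut τ (Wm D A m x y)) x y =
      (∑ x ∈ S, ∑ y ∈ S, h x * b y * ((A x y - Wm D A m' x y) * (1 + cut τ (Wm D A m x y)))) +
      (∑ x ∈ S, ∑ y ∈ S, h x * b y * ((Wm D A m' x y - Wm D A m x y) *
        (1 + cut τ (Wm D A m x y)))) +
      ∑ x ∈ S, ∑ y ∈ S, h x * b y * ((Wm D A m x y - clip (Wm D A m x y)) *
        (1 + cut τ (Wm D A m x y))) := by
    rw [← Finset.sum_add_distrib, ← Finset.sum_add_distrib]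
    refine Finset.sum_congr rfl fun x _ => ?_
    rw [← Finset.sum_add_distrib, ← Finset.sum_add_distrib]
    refine Finset.sum_congr rfl fun y _ => ?_
    unfold nz
    ring
  have hfac : ∀ r : V → V → ℝ, ∀ B : ℝ, 0 ≤ B → Real.sqrt (∑ x ∈ S, ∑ y ∈ S, r x y ^ 2) ≤ B →
      |∑ x ∈ S, ∑ y ∈ S, h x * b y * (r x y * (1 + cut τ (Wm D A m x y)))| ≤ 2 * B * N := by
    intro r B hB hr
    refine (cs S h b _).trans ?_
    rw [mul_assoc, ← hN]
    apply mul_le_mul_of_nonneg_right _ hN0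
    have h3 : ∑ x ∈ S, ∑ y ∈ S, (r x y * (1 + cut τ (Wm D A m x y))) ^ 2 ≤
        2 ^ 2 * ∑ x ∈ S, ∑ y ∈ S, r x y ^ 2 := by
      simp only [Finset.mul_sum]
      refine Finset.sum_le_sum fun x _ => Finset.sum_le_sum fun y _ => ?_
      rw [mul_pow, mul_comm]
      apply mul_le_mul_of_nonneg_right _ (sq_nonneg _)
      have h4 := cut_nonneg τ (Wm D A m x y)
      have h5 := cut_le τ (Wm D A m x y)
      exact pow_le_pow_left₀ (by linarith) (by linarith) 2
    calc Real.sqrt (∑ x ∈ S, ∑ y ∈ S, (r x y * (1 + cut τ (Wm D A m x y))) ^ 2) ≤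
        Real.sqrt (2 ^ 2 * ∑ x ∈ S, ∑ y ∈ S, r x y ^ 2) := Real.sqrt_le_sqrt h3
      _ = 2 * Real.sqrt (∑ x ∈ S, ∑ y ∈ S, r x y ^ 2) := by
          rw [Real.sqrt_mul (by norm_num), Real.sqrt_sq (by norm_num)]
      _ ≤ 2 * B := by gcongr
  have hT1 := h1 h b
  rw [← hN] at hT1
  have hT2 := hfac (fun x y => Wm D A m' x y - Wm D A m x y) (ε / 16 * D) (by positivity) (by
    refine (Real.sqrt_le_sqrt hWW).trans (le_of_eq ?_)
    rw [Real.sqrt_mul (sq_nonneg _), Real.sqrt_sq (by positivity), Real.sqrt_sq hD0.le])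
  have hT3 := hfac (fun x y => Wm D A m x y - clip (Wm D A m x y)) (3 * ε / 16 * D)
    (by positivity) (by rw [← hG2]; exact hG)
  rw [hsplit, mul_assoc (ε * D), ← hN]
  refine (abs_add_le _ _).trans ?_
  refine (add_le_add (abs_add_le _ _) le_rfl).trans ?_
  have hεDN : 0 ≤ ε * D * N := by positivity
  calc _ ≤ ε / 4 * D * N + 2 * (ε / 16 * D) * N + 2 * (3 * ε / 16 * D) * N :=
        add_le_add (add_le_add hT1 hT2) hT3
    _ ≤ ε * D * N := by nlinarith

end Pool.Agent.Helper85.Vu
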