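import Pool.Agent.Helper85.Vu.A1
import Pool.Agent.Helper85.Vu.A2
import Pool.Agent.Helper85.Vu.A3
import Pool.Agent.Helper85.Vu.A4

/-!
Block A5: existence of the kernels, by pigeonhole over the number of smoothing steps.
-/

set_option linter.unusedVariables false

namespace Pool.Agent.Helper85.Vu

open Finset
open scoped Classical

section A5

theorem clip_nonneg_A5 (w : ℝ) : 0 ≤ clip w := le_max_left _ _

theorem clip_le_one_A5 (w : ℝ) : clip w ≤ 1 := max_le zero_le_one (min_le_left _ _)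

theorem clip_sq_le_A5 (w : ℝ) : clip w ^ 2 ≤ w ^ 2 := by
  unfold clip
  rcases le_total w 0 with h | h
  · have : min 1 w ≤ 0 := (min_le_right _ _).trans h
    rw [max_eq_left this]
    nlinarith [sq_nonneg w]
  · rw [max_eq_right (le_min zero_le_one h)]
    have h1 : min 1 w ≤ w := min_le_right _ _
    have h2 : 0 ≤ min 1 w := le_min zero_le_one h
    exact pow_le_pow_left₀ h2 h1 2

theorem cut_nonneg_A5 (τ w : ℝ) : 0 ≤ cut τ w := le_max_left _ _

theorem cut_le_clip_A5 (τ w : ℝ) : cut τ w ≤ clip w :=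
  max_le (clip_nonneg_A5 w) (min_le_left _ _)

theorem clip_sub_cut_A5 {τ : ℝ} (hτ : 0 < τ) (hτ1 : τ ≤ 1) (w : ℝ) :
    clip w - cut τ w ≤ τ := by
  unfold cut
  rcases le_total w τ with h | h
  · have h1 : clip w ≤ τ := max_le hτ.le ((min_le_right _ _).trans h)
    have h2 : 0 ≤ max 0 (min (clip w) (2 * (w - τ))) := le_max_left _ _
    linarith
  · have h0 : 0 ≤ w := hτ.le.trans h
    have h1 : clip w ≤ w := max_le h0 (min_le_right _ _)
    have h2 : clip w - τ ≤ min (clip w) (2 * (w - τ)) := by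
      apply le_min
      · linarith
      · linarith
    have h3 : min (clip w) (2 * (w - τ)) ≤ max 0 (min (clip w) (2 * (w - τ))) :=
      le_max_right _ _
    linarith

theorem cut_ne_zero_A5 {τ w : ℝ} (h : cut τ w ≠ 0) : τ < w := by
  by_contra hc
  push Not at hc
  apply h
  unfold cut
  apply max_eq_left
  refine (min_le_right _ _).trans ?_
  linarith

variable {V : Type} [Fintype V] {D : ℝ} {A : V → V → ℝ}

theorem Wm_row_A5 (hA : Adj D A) (m : ℕ) (x : V) : ∑ y, Wm D A m x y ^ 2 ≤ D := by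
  obtain ⟨-, hs, hn, -, -⟩ := spectral hA
  have h1 := hn m (fun y => if y = x then 1 else 0)
  have e1 : (fun x' => ∑ y, Wm D A m x' y * (if y = x then (1 : ℝ) else 0)) =
      fun x' => Wm D A m x' x := by
    funext x'; simp
  have e2 : (fun x' => ∑ y, A x' y * (if y = x then (1 : ℝ) else 0)) =
      fun x' => A x' x := by
    funext x'; simp
  rw [e1, e2] at h1
  have h2 : nrm (fun x' => Wm D A m x' x) ^ 2 ≤ nrm (fun x' => A x' x) ^ 2 :=
    pow_le_pow_left₀ (nrm_nonneg_A2 _) h1 2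
  rw [nrm_sq_A2, nrm_sq_A2] at h2
  calc ∑ y, Wm D A m x y ^ 2 = ∑ y, Wm D A m y x ^ 2 :=
        Finset.sum_congr rfl fun y _ => by rw [hs m x y]
    _ ≤ ∑ y, A y x ^ 2 := h2
    _ = ∑ y, A x y := Finset.sum_congr rfl fun y _ => by rw [hA.sq_A2, hA.symm]
    _ ≤ D := hA.row x

theorem ker_A5 (hA : Adj D A) {τ : ℝ} (hτ : 0 < τ) (hτ1 : τ ≤ 1) (m : ℕ) :
    Ker D τ A (fun x y => clip (Wm D A m x y)) (fun x y => cut τ (Wm D A m x y)) := by
  obtain ⟨-, hs, -, -, -⟩ := spectral hA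
  refine ⟨hA, hτ, ?_, ?_, ?_, ?_, ?_, ?_, ?_, ?_⟩
  · intro x y
    show clip _ = clip _
    rw [hs m x y]
  · intro x y
    show cut τ _ = cut τ _
    rw [hs m x y]
  · intro x y; exact cut_nonneg_A5 _ _
  · intro x y; exact cut_le_clip_A5 _ _
  · intro x y; exact clip_le_one_A5 _
  · intro x y; exact clip_sub_cut_A5 hτ hτ1 _
  · intro x
    exact (Finset.sum_le_sum fun y _ => clip_sq_le_A5 _).trans (Wm_row_A5 hA m x)
  · intro x
    rw [le_div_iff₀ (by positivity)]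
    calc ((univ.filter (fun y => cut τ (Wm D A m x y) ≠ 0)).card : ℝ) * τ ^ 2
        = ∑ y ∈ univ.filter (fun y => cut τ (Wm D A m x y) ≠ 0), τ ^ 2 := by
          rw [Finset.sum_const, nsmul_eq_mul]
      _ ≤ ∑ y ∈ univ.filter (fun y => cut τ (Wm D A m x y) ≠ 0), Wm D A m x y ^ 2 := by
          refine Finset.sum_le_sum fun y hy => ?_
          have := cut_ne_zero_A5 (Finset.mem_filter.1 hy).2
          exact pow_le_pow_left₀ hτ.le this.le 2
      _ ≤ ∑ y, Wm D A m x y ^ 2 :=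
          Finset.sum_le_sum_of_subset_of_nonneg (Finset.filter_subset _ _)
            fun _ _ _ => sq_nonneg _
      _ ≤ D := Wm_row_A5 hA m x

/-- the number of smoothing steps -/
def msA5 (M : ℕ → ℕ) : ℕ → ℕ
  | 0 => 1
  | k + 1 => max (M (msA5 M k)) (msA5 M k)

theorem pigeon_A5 (hA : Adj D A) (M : ℕ → ℕ) {γ : ℝ} (hγ : 0 < γ) :
    ∃ k, k < Nat.ceil (1 / γ) + 1 ∧
      ∑ x, ∑ y, (Wm D A (msA5 M (k + 1)) x y - Wm D A (msA5 M k) x y) ^ 2 ≤
        γ * (Fintype.card V) * D := by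
  obtain ⟨-, -, -, -, hd⟩ := spectral hA
  have hD := hA.pos_A2
  set a : ℕ → ℝ := fun k => ∑ x, ∑ y, Wm D A (msA5 M k) x y ^ 2 with ha
  set K := Nat.ceil (1 / γ) + 1 with hK
  have h1 : ∑ k ∈ range K,
      ∑ x, ∑ y, (Wm D A (msA5 M (k + 1)) x y - Wm D A (msA5 M k) x y) ^ 2 ≤
      ∑ k ∈ range K, γ * (Fintype.card V) * D := by
    calc ∑ k ∈ range K,
        ∑ x, ∑ y, (Wm D A (msA5 M (k + 1)) x y - Wm D A (msA5 M k) x y) ^ 2
        ≤ ∑ k ∈ range K, (a (k + 1) - a k) :=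
          Finset.sum_le_sum fun k _ => hd _ _ (le_max_right _ _)
      _ = a K - a 0 := Finset.sum_range_sub a K
      _ ≤ a K := by
          have : 0 ≤ a 0 := Finset.sum_nonneg fun _ _ => Finset.sum_nonneg fun _ _ => sq_nonneg _
          linarith
      _ ≤ ∑ x : V, D := Finset.sum_le_sum fun x _ => Wm_row_A5 hA _ x
      _ = (Fintype.card V) * D := by
          rw [Finset.sum_const, nsmul_eq_mul, Finset.card_univ]
      _ ≤ (K * γ) * ((Fintype.card V) * D) := by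
          have hK1 : 1 ≤ (K : ℝ) * γ := by
            have h2 : 1 / γ ≤ (Nat.ceil (1 / γ) : ℝ) := Nat.le_ceil _
            have h3 : (K : ℝ) = (Nat.ceil (1 / γ) : ℝ) + 1 := by rw [hK]; push_cast; rfl
            have h4 : 1 / γ * γ = 1 := by field_simp
            rw [h3]
            nlinarith
          have h0 : 0 ≤ (Fintype.card V : ℝ) * D := by positivity
          nlinarith
      _ = ∑ k ∈ range K, γ * (Fintype.card V) * D := by
          rw [Finset.sum_const, nsmul_eq_mul, Finset.card_range]; ring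
  obtain ⟨k, hk, hk2⟩ := Finset.exists_le_of_sum_le
    (Finset.nonempty_range_iff.2 (by omega)) h1
  exact ⟨k, Finset.mem_range.1 hk, hk2⟩

/-- A5, kernels -/
theorem kernel_exists (ζ ε₀ τ β κ ε γ : ℝ) (hζ : 0 ≤ ζ) (hζ1 : ζ ≤ 1) (hε₀ : 0 < ε₀)
    (hτ : 0 < τ) (hτ1 : τ ≤ 1) (hβ : 0 < β) (hκ : 0 < κ) (hε : 0 < ε) (hγ : 0 < γ) :
    ∃ D₀ : ℝ, ∀ (V : Type) [Fintype V] (D : ℝ) (A : V → V → ℝ), D₀ ≤ D → Adj D A →
      (∀ x y, x ≠ y → ∑ z, A x z * A y z ≤ ζ * D + 2) →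
      ∃ C P E : V → V → ℝ, Ker D τ A C P ∧
        (∀ S : Finset V, (S.card : ℝ) ≤ κ * D →
          ((S.filter (fun x => (ζ + ε₀) * D < ∑ y ∈ S, C x y ^ 2)).card : ℝ) ≤ β * D) ∧
        (∀ x y, 0 ≤ E x y) ∧
        (∑ x, ∑ y, E x y ≤ γ * (Fintype.card V) * D) ∧
        (∀ S : Finset V, (S.card : ℝ) ≤ κ * D →
          ∑ x ∈ S, ∑ y ∈ S, E x y ≤ (ε / 16) ^ 2 * D ^ 2 → NoiseOK ε D A C P S) := by
  choose M hM using noise τ κ ε hτ hκ hε
  choose T hT using fun m => twin m κ β ε₀ hκ hβ hε₀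
  refine ⟨∑ k ∈ range (Nat.ceil (1 / γ) + 1), |T (msA5 M k)|, ?_⟩
  intro V _ D A hD hA hcod
  obtain ⟨k, hk, hE⟩ := pigeon_A5 hA M hγ
  have hTk : T (msA5 M k) ≤ D := by
    refine (le_abs_self _).trans (le_trans ?_ hD)
    exact Finset.single_le_sum (f := fun k => |T (msA5 M k)|) (fun i _ => abs_nonneg _)
      (Finset.mem_range.2 hk)
  refine ⟨fun x y => clip (Wm D A (msA5 M k) x y), fun x y => cut τ (Wm D A (msA5 M k) x y),
    fun x y => (Wm D A (msA5 M (k + 1)) x y - Wm D A (msA5 M k) x y) ^ 2,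
    ker_A5 hA hτ hτ1 _, ?_, fun x y => sq_nonneg _, hE, ?_⟩
  · intro S hS
    refine le_trans ?_ (hT (msA5 M k) V D ζ A hTk hζ hζ1 hA hcod S hS)
    have hsub : S.filter (fun x => (ζ + ε₀) * D < ∑ y ∈ S, clip (Wm D A (msA5 M k) x y) ^ 2) ⊆
        S.filter (fun x => (ζ + ε₀) * D < ∑ y ∈ S, Wm D A (msA5 M k) x y ^ 2) := by
      intro x hx
      rw [Finset.mem_filter] at hx ⊢
      exact ⟨hx.1, hx.2.trans_le (Finset.sum_le_sum fun y _ => clip_sq_le_A5 _)⟩
    exact_mod_cast Finset.card_le_card hsub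
  · intro S hS hES
    exact hM (msA5 M k) (msA5 M (k + 1)) (le_max_left _ _) V D A hA S hS hES

end A5

end Pool.Agent.Helper85.Vu
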