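import Pool.Agent.Helper85.Vu.Defs

set_option linter.unusedVariables false

namespace Pool.Agent.Helper85.Vu

open Finset
open scoped Classical

/-- the basic schedule -/
private noncomputable def Gs (ζ₁ ζ₂ t : ℝ) : ℝ := ζ₁ / (1 - ζ₂ * t)

private theorem Gs_nonneg {ζ₁ ζ₂ T t : ℝ} (h1 : 0 < ζ₁) (h2 : ζ₁ < ζ₂) (hT2 : ζ₂ * T < 1)
    (ht : t ≤ T) : 0 ≤ Gs ζ₁ ζ₂ t := by
  unfold Gs
  apply div_nonneg h1.le
  have : ζ₂ * t ≤ ζ₂ * T := mul_le_mul_of_nonneg_left ht (h1.trans h2).le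
  linarith

private theorem Gs_bound {ζ₁ ζ₂ T t e τ Λ : ℝ} (h1 : 0 < ζ₁) (h2 : ζ₁ < ζ₂) (hT2 : ζ₂ * T < 1)
    (ht0 : 0 ≤ t) (ht : t ≤ T) (hτΛ : 0 ≤ τ * Λ) (hc : e * ζ₁ + τ * Λ ≤ ζ₂) :
    e * Gs ζ₁ ζ₂ t + τ * Λ ≤ ζ₂ / (1 - ζ₂ * t) := by
  have hζ₂ : 0 < ζ₂ := h1.trans h2
  have h3 : ζ₂ * t ≤ ζ₂ * T := mul_le_mul_of_nonneg_left ht hζ₂.le
  have hp : 0 < 1 - ζ₂ * t := by linarith
  unfold Gs
  rw [le_div_iff₀ hp]
  have h4 : (e * (ζ₁ / (1 - ζ₂ * t)) + τ * Λ) * (1 - ζ₂ * t) =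
      e * ζ₁ + τ * Λ * (1 - ζ₂ * t) := by
    field_simp
  rw [h4]
  have h5 : τ * Λ * (1 - ζ₂ * t) ≤ τ * Λ := by
    have : 0 ≤ ζ₂ * t := mul_nonneg hζ₂.le ht0
    nlinarith
  linarith

private theorem Gs_step {ζ₁ ζ₂ T t θ x : ℝ} (h1 : 0 < ζ₁) (h2 : ζ₁ < ζ₂) (hT2 : ζ₂ * T < 1)
    (ht0 : 0 ≤ t) (hθ : 0 ≤ θ) (ht : t + θ ≤ T) (hx : x ≤ ζ₂ / (1 - ζ₂ * t)) :
    Gs ζ₁ ζ₂ t * (1 + θ * x) ≤ Gs ζ₁ ζ₂ (t + θ) := by
  have hζ₂ : 0 < ζ₂ := h1.trans h2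
  have h3 : ζ₂ * (t + θ) ≤ ζ₂ * T := mul_le_mul_of_nonneg_left ht hζ₂.le
  have hp' : 0 < 1 - ζ₂ * (t + θ) := by linarith
  have h3' : 0 ≤ ζ₂ * θ := mul_nonneg hζ₂.le hθ
  have hp : 0 < 1 - ζ₂ * t := by nlinarith
  have hG0 : 0 ≤ Gs ζ₁ ζ₂ t := Gs_nonneg (T := T) h1 h2 hT2 (by linarith)
  have h6 : Gs ζ₁ ζ₂ t * (1 + θ * x) ≤ Gs ζ₁ ζ₂ t * (1 + θ * (ζ₂ / (1 - ζ₂ * t))) := by
    apply mul_le_mul_of_nonneg_left _ hG0
    have := mul_le_mul_of_nonneg_left hx hθ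
    linarith
  refine h6.trans ?_
  unfold Gs
  rw [le_div_iff₀ hp']
  have h7 : ζ₁ / (1 - ζ₂ * t) * (1 + θ * (ζ₂ / (1 - ζ₂ * t))) * (1 - ζ₂ * (t + θ)) =
      ζ₁ * (1 - (ζ₂ * θ / (1 - ζ₂ * t)) ^ 2) := by
    field_simp
    ring
  rw [h7]
  have : 0 ≤ (ζ₂ * θ / (1 - ζ₂ * t)) ^ 2 := sq_nonneg _
  nlinarith

/-- B3, schedules -/
theorem sched (ζ₁ ζ₂ T Λ τ : ℝ) (J N' : ℕ) (h1 : 0 < ζ₁) (h2 : ζ₁ < ζ₂) (hT : 0 < T)
    (hT2 : ζ₂ * T < 1) (hτ : 0 ≤ τ) (hτ1 : τ ≤ 1) (hΛ : ζ₂ / (1 - ζ₂ * T) ≤ Λ) (hJ : 1 ≤ J)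
    (hN : 1 ≤ N') (hc : Real.exp (2 * Λ * (T / J)) * ζ₁ + τ * Λ ≤ ζ₂) :
    ∃ (g : ℕ → ℕ → ℝ) (kj : ℕ → ℕ), kj J = 0 ∧
      (∀ j, j ≤ J → g j 0 = ζ₁) ∧
      (∀ j k, j ≤ J → k < J * N' → k < kj j →
        g j k * (1 + T / (J * N' : ℕ) * (g (j + 1) k + τ * Λ)) ≤ g j (k + 1)) ∧
      (∀ j k, j ≤ J → k < J * N' → kj j ≤ k →
        g j k * (1 + T / (J * N' : ℕ) * (2 * Λ)) ≤ g j (k + 1)) ∧
      (∀ j k, j ≤ J → k < J * N' → k < kj j → g (j + 1) k + τ * Λ ≤ 2 * Λ) ∧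
      (∀ k, k ≤ J * N' → g 0 k + τ * Λ ≤ ζ₂ / (1 - ζ₂ * (k * (T / (J * N' : ℕ))))) ∧
      (∀ j k, 0 ≤ g j k) ∧
      (∀ j k, j ≤ J → k ≤ J * N' → g j k ≤ ζ₂ / (1 - ζ₂ * T) * Real.exp (2 * Λ * T)) := by
  have hζ₂ : 0 < ζ₂ := h1.trans h2
  have hpT : 0 < 1 - ζ₂ * T := by linarith
  have hΛ0 : 0 < Λ := lt_of_lt_of_le (div_pos hζ₂ hpT) hΛ
  have hτΛ : 0 ≤ τ * Λ := mul_nonneg hτ hΛ0.le
  have hJN : 0 < J * N' := Nat.mul_pos (by omega) (by omega)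
  set θ : ℝ := T / (J * N' : ℕ) with hθdef
  have hJNR : (0 : ℝ) < ((J * N' : ℕ) : ℝ) := by exact_mod_cast hJN
  have hθ : 0 < θ := div_pos hT hJNR
  have hJNθ : ((J * N' : ℕ) : ℝ) * θ = T := by
    rw [hθdef]; field_simp
  have hJR : (0 : ℝ) < J := by exact_mod_cast (by omega : 0 < J)
  have hNθ : ((N' : ℕ) : ℝ) * θ = T / J := by
    rw [hθdef]; push_cast
    have : (0 : ℝ) < N' := by exact_mod_cast (by omega : 0 < N')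
    field_simp
  have hle : ∀ k : ℕ, k ≤ J * N' → (k : ℝ) * θ ≤ T := by
    intro k hk
    rw [← hJNθ]
    exact mul_le_mul_of_nonneg_right (by exact_mod_cast hk) hθ.le
  set kj : ℕ → ℕ := fun j => (J - j) * N' with hkj
  have hkjle : ∀ j, kj j ≤ J * N' := fun j => Nat.mul_le_mul_right _ (Nat.sub_le _ _)
  set e : ℝ := Real.exp (2 * Λ * (T / J)) with he
  have he1 : 1 ≤ e := by
    rw [he]; apply Real.one_le_exp
    positivity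
  let g : ℕ → ℕ → ℝ := fun j k =>
    Gs ζ₁ ζ₂ ((min k (kj j) : ℕ) * θ) * Real.exp (2 * Λ * (((k - kj j : ℕ) : ℝ) * θ))
  have hmin : ∀ j k, ((min k (kj j) : ℕ) : ℝ) * θ ≤ T := fun j k =>
    hle _ ((min_le_right _ _).trans (hkjle j))
  have hg0 : ∀ j k, 0 ≤ g j k := fun j k =>
    mul_nonneg (Gs_nonneg h1 h2 hT2 (hmin j k)) (Real.exp_pos _).le
  have hg1 : ∀ j k, k ≤ kj j → g j k = Gs ζ₁ ζ₂ (k * θ) := by
    intro j k hk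
    show Gs ζ₁ ζ₂ ((min k (kj j) : ℕ) * θ) * Real.exp (2 * Λ * (((k - kj j : ℕ) : ℝ) * θ)) = _
    rw [min_eq_left hk, Nat.sub_eq_zero_of_le hk]
    simp
  -- bound of the next level
  have hmono : ∀ s t : ℝ, s ≤ t → t ≤ T → Gs ζ₁ ζ₂ s ≤ Gs ζ₁ ζ₂ t := by
    intro s t hst ht
    unfold Gs
    have a1 : ζ₂ * t ≤ ζ₂ * T := mul_le_mul_of_nonneg_left ht hζ₂.le
    have a2 : ζ₂ * s ≤ ζ₂ * t := mul_le_mul_of_nonneg_left hst hζ₂.le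
    exact div_le_div_of_nonneg_left h1.le (by linarith) (by linarith)
  have hnext : ∀ j k, k < kj j → g (j + 1) k ≤ e * Gs ζ₁ ζ₂ (k * θ) := by
    intro j k hk
    have hkT : (k : ℝ) * θ ≤ T := hle k (hk.le.trans (hkjle j))
    have hjJ : j < J := by
      by_contra hcon
      push Not at hcon
      have : kj j = 0 := by
        simp only [hkj]
        rw [Nat.sub_eq_zero_of_le hcon]; simp
      omega
    have hkk : kj j = kj (j + 1) + N' := by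
      simp only [hkj]
      have : J - j = (J - (j + 1)) + 1 := by omega
      rw [this]; ring
    have hb1 : ((min k (kj (j + 1)) : ℕ) : ℝ) * θ ≤ k * θ :=
      mul_le_mul_of_nonneg_right (by exact_mod_cast min_le_left _ _) hθ.le
    have hb2 : (((k - kj (j + 1) : ℕ) : ℝ) * θ) ≤ T / J := by
      rw [← hNθ]
      apply mul_le_mul_of_nonneg_right _ hθ.le
      exact_mod_cast (by omega : k - kj (j + 1) ≤ N')
    show Gs ζ₁ ζ₂ ((min k (kj (j + 1)) : ℕ) * θ) *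
      Real.exp (2 * Λ * (((k - kj (j + 1) : ℕ) : ℝ) * θ)) ≤ _
    rw [mul_comm e]
    apply mul_le_mul (hmono _ _ hb1 hkT) _ (Real.exp_pos _).le (Gs_nonneg h1 h2 hT2 hkT)
    rw [he]
    apply Real.exp_le_exp.mpr
    exact mul_le_mul_of_nonneg_left hb2 (by linarith)
  have hcomb : ∀ j k, k < kj j → g (j + 1) k + τ * Λ ≤ ζ₂ / (1 - ζ₂ * (k * θ)) := by
    intro j k hk
    have hkT : (k : ℝ) * θ ≤ T := hle k (hk.le.trans (hkjle j))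
    have := Gs_bound (e := e) h1 h2 hT2 (t := k * θ) (by positivity) hkT hτΛ hc
    linarith [hnext j k hk]
  have hmonoζ : ∀ t : ℝ, t ≤ T → ζ₂ / (1 - ζ₂ * t) ≤ ζ₂ / (1 - ζ₂ * T) := by
    intro t ht
    have a1 : ζ₂ * t ≤ ζ₂ * T := mul_le_mul_of_nonneg_left ht hζ₂.le
    exact div_le_div_of_nonneg_left hζ₂.le hpT (by linarith)
  refine ⟨g, kj, ?_, ?_, ?_, ?_, ?_, ?_, hg0, ?_⟩
  · simp [hkj]
  · intro j hj
    rw [hg1 j 0 (Nat.zero_le _)]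
    simp [Gs]
  · intro j k hj hk hkj'
    rw [hg1 j k hkj'.le, hg1 j (k + 1) hkj']
    have hk1 : ((k + 1 : ℕ) : ℝ) * θ = k * θ + θ := by push_cast; ring
    rw [hk1]
    apply Gs_step (T := T) h1 h2 hT2 (by positivity) hθ.le
    · rw [← hk1]; exact hle _ hk
    · exact hcomb j k hkj'
  · intro j k hj hk hkj'
    have hgk : g j (k + 1) = g j k * Real.exp (2 * Λ * θ) := by
      show Gs ζ₁ ζ₂ ((min (k + 1) (kj j) : ℕ) * θ) *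
        Real.exp (2 * Λ * (((k + 1 - kj j : ℕ) : ℝ) * θ)) =
        Gs ζ₁ ζ₂ ((min k (kj j) : ℕ) * θ) * Real.exp (2 * Λ * (((k - kj j : ℕ) : ℝ) * θ)) *
          Real.exp (2 * Λ * θ)
      rw [min_eq_right hkj', min_eq_right (by omega : kj j ≤ k + 1),
        mul_assoc (Gs ζ₁ ζ₂ ((kj j : ℕ) * θ)), ← Real.exp_add]
      congr 2
      have : ((k + 1 - kj j : ℕ) : ℝ) = ((k - kj j : ℕ) : ℝ) + 1 := by
        have : k + 1 - kj j = (k - kj j) + 1 := by omega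
        rw [this]; push_cast; ring
      rw [this]; ring
    rw [hgk]
    apply mul_le_mul_of_nonneg_left _ (hg0 j k)
    have := Real.add_one_le_exp (2 * Λ * θ)
    linarith
  · intro j k hj hk hkj'
    have hkT : (k : ℝ) * θ ≤ T := hle k (hkj'.le.trans (hkjle j))
    have := hmonoζ _ hkT
    linarith [hcomb j k hkj']
  · intro k hk
    have hkj0 : kj 0 = J * N' := by simp [hkj]
    rw [hg1 0 k (by rw [hkj0]; exact hk)]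
    have := Gs_bound (e := 1) h1 h2 hT2 (t := k * θ) (by positivity) (hle k hk) hτΛ
      (by nlinarith)
    linarith
  · intro j k hj hk
    show Gs ζ₁ ζ₂ ((min k (kj j) : ℕ) * θ) * Real.exp (2 * Λ * (((k - kj j : ℕ) : ℝ) * θ)) ≤ _
    have hb2 : (((k - kj j : ℕ) : ℝ) * θ) ≤ T := hle _ ((Nat.sub_le _ _).trans hk)
    have hb1 := hmono _ T (hmin j k) le_rfl
    have hb3 : Gs ζ₁ ζ₂ T ≤ ζ₂ / (1 - ζ₂ * T) := by
      unfold Gs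
      exact div_le_div_of_nonneg_right h2.le hpT.le
    apply mul_le_mul (hb1.trans hb3) _ (Real.exp_pos _).le (div_pos hζ₂ hpT).le
    apply Real.exp_le_exp.mpr
    exact mul_le_mul_of_nonneg_left hb2 (by linarith)

end Pool.Agent.Helper85.Vu
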