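import Mathlib

/-!
Definitions for the proof of the independence number conjecture for graphs of small codegree.

`A` is the closed adjacency matrix (0/1 valued, 1 on the diagonal), `D` a bound for its row sums.
`C` is a local density kernel with values in `[0,1]`, `P` a truncation of `C`.
-/

set_option linter.unusedVariables false

namespace Pool.Agent.Helper85.Vu

open Finset
open scoped Classical

/-! ### euclidean norm and quadratic forms -/

/-- euclidean norm -/
noncomputable def nrm {V : Type} [Fintype V] (h : V → ℝ) : ℝ := Real.sqrt (∑ x, h x ^ 2)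

/-- `M` has operator norm at most `μ` -/
def OpLe {V : Type} [Fintype V] (M : V → V → ℝ) (μ : ℝ) : Prop :=
  ∀ h b : V → ℝ, |∑ x, ∑ y, h x * M x y * b y| ≤ μ * nrm h * nrm b

/-- closed adjacency matrices -/
structure Adj {V : Type} [Fintype V] (D : ℝ) (A : V → V → ℝ) : Prop where
  one_le : 1 ≤ D
  symm : ∀ x y, A x y = A y x
  zo : ∀ x y, A x y = 0 ∨ A x y = 1
  refl : ∀ x, A x x = 1
  row : ∀ x, ∑ y, A x y ≤ D

/-- the smoothed adjacency matrix `A (1 - (1 - A² / D²)^m)` -/
noncomputable def Wm {V : Type} [Fintype V] (D : ℝ) (A : V → V → ℝ) (m : ℕ) : Matrix V V ℝ :=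
  (Matrix.of A) * (1 - (1 - (D ^ 2)⁻¹ • (Matrix.of A) ^ 2) ^ m)

/-- truncation to `[0,1]` -/
noncomputable def clip (w : ℝ) : ℝ := max 0 (min 1 w)

/-- truncation which vanishes below `τ` and equals `clip` above `2 τ` -/
noncomputable def cut (τ w : ℝ) : ℝ := max 0 (min (clip w) (2 * (w - τ)))

/-! ### kernels -/

/-- the properties of the kernels `C`, `P` which are used in the process -/
structure Ker {V : Type} [Fintype V] (D τ : ℝ) (A C P : V → V → ℝ) : Prop extends
    Adj D A where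
  tau_pos : 0 < τ
  C_symm : ∀ x y, C x y = C y x
  P_symm : ∀ x y, P x y = P y x
  P_nonneg : ∀ x y, 0 ≤ P x y
  P_le : ∀ x y, P x y ≤ C x y
  C_le : ∀ x y, C x y ≤ 1
  gap : ∀ x y, C x y - P x y ≤ τ
  C_row : ∀ x, ∑ y, C x y ^ 2 ≤ D
  P_supp : ∀ x, ((univ.filter (fun y => P x y ≠ 0)).card : ℝ) ≤ D / τ ^ 2

/-- the kernel of the process: `1` on closed neighbourhoods, `- P` elsewhere -/
def dd {V : Type} (A P : V → V → ℝ) (x y : V) : ℝ := A x y - (1 - A x y) * P x y

/-- the noise kernel -/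
def nz {V : Type} (A C P : V → V → ℝ) (x y : V) : ℝ := (A x y - C x y) * (1 + P x y)

/-- the kernel of low densities -/
def lw {V : Type} (C P : V → V → ℝ) (x y : V) : ℝ := (1 - C x y) * (C x y - P x y)

theorem dd_eq {V : Type} (A C P : V → V → ℝ) (x y : V) :
    dd A P x y = C x y ^ 2 + lw C P x y + nz A C P x y := by
  unfold dd lw nz; ring

/-- small bilinear norm of the noise on `S` -/
def NoiseOK {V : Type} [Fintype V] (ε D : ℝ) (A C P : V → V → ℝ) (S : Finset V) : Prop :=
  ∀ h b : V → ℝ, |∑ x ∈ S, ∑ y ∈ S, h x * b y * nz A C P x y| ≤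
    ε * D * Real.sqrt (∑ x ∈ S, h x ^ 2) * Real.sqrt (∑ y ∈ S, b y ^ 2)

/-- regions around `u` -/
noncomputable def reg {V : Type} [Fintype V] (η D : ℝ) (A P : V → V → ℝ) (u : V) : ℕ → Finset V
  | 0 => univ.filter (fun w => A u w = 1)
  | j + 1 => reg η D A P u j ∪ univ.filter (fun w => P u w ≠ 0) ∪
      univ.filter (fun e => η * D ≤ ∑ y ∈ reg η D A P u j, (A y e + P y e))

/-- weights around `u` -/
noncomputable def om {V : Type} [Fintype V] (η D : ℝ) (A C P : V → V → ℝ) (u : V) : ℕ → V → ℝ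
  | 0 => fun x => A u x + P u x ^ 2
  | j + 1 => fun x => om η D A C P u j x +
      if x ∈ reg η D A P u j then (∑ y, om η D A C P u j y * C y x ^ 2) / D else 0

/-- size of the regions -/
noncomputable def kap (τ η : ℝ) : ℕ → ℝ
  | 0 => 1
  | j + 1 => kap τ η j * (1 + (1 + 1 / τ ^ 2) / η) + 1 / τ ^ 2

/-! ### the process -/

/-- growth rate -/
noncomputable def rt {V : Type} [Fintype V] (D : ℝ) (A P : V → V → ℝ) (R : V → ℝ) (x : V) : ℝ :=
  (∑ y, R y * dd A P x y) / D

/-- the weights after the selection of `e` -/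
def pk {V : Type} (A P : V → V → ℝ) (R : V → ℝ) (e : V) : V → ℝ :=
  fun x => R x * (1 - dd A P x e)

/-- the weights after waiting for time `θ` -/
noncomputable def wt {V : Type} [Fintype V] (D : ℝ) (A P : V → V → ℝ) (θ : ℝ) (R : V → ℝ) :
    V → ℝ :=
  fun x => R x * (1 + θ * rt D A P R x)

/-- weighted degree -/
noncomputable def HH {V : Type} [Fintype V] (D : ℝ) (A : V → V → ℝ) (R : V → ℝ) (x : V) : ℝ :=
  (∑ w, A x w * R w) / D

/-- weighted degree for the squared kernel `P` -/
noncomputable def HP {V : Type} [Fintype V] (D : ℝ) (P : V → V → ℝ) (R : V → ℝ) (x : V) : ℝ :=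
  (∑ w, P x w ^ 2 * R w) / D

/-- local codegree functional -/
noncomputable def FF {V : Type} [Fintype V] (D : ℝ) (C : V → V → ℝ) (B : Finset V) (x : V)
    (R : V → ℝ) : ℝ :=
  (∑ y ∈ B, C x y ^ 2 * R y) / D

/-- positive part -/
def pp (x : ℝ) : ℝ := max x 0

/-- the potential of level `j` -/
noncomputable def Ps {V : Type} [Fintype V] (η D : ℝ) (A C P : V → V → ℝ) (u : V) (j : ℕ)
    (g : ℝ) (R : V → ℝ) : ℝ :=
  (∑ x, om η D A C P u j x * pp (FF D C (reg η D A P u j) x R - g) ^ 2) / D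

end Pool.Agent.Helper85.Vu
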