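import Pool.Agent.Helper85.Vu.A5
import Pool.Agent.H48.Vu.P9

set_option linter.unusedVariables false
set_option linter.unusedSectionVars false

namespace Pool.Agent.Helper85.Vu

open Finset

section

variable {V : Type} [Fintype V] [DecidableEq V] (G : SimpleGraph V) [DecidableRel G.Adj]

/-- closed adjacency function of a graph -/
def adjF (x y : V) : ℝ := if x = y ∨ G.Adj x y then 1 else 0

theorem adjF_sum (x : V) : ∑ y, adjF G x y = (G.degree x : ℝ) + 1 := by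
  unfold adjF
  rw [Finset.sum_ite, Finset.sum_const_zero, add_zero, Finset.sum_const, nsmul_eq_mul, mul_one]
  have h : univ.filter (fun y => x = y ∨ G.Adj x y) = insert x (G.neighborFinset x) := by
    ext y
    simp [eq_comm]
  rw [h, Finset.card_insert_of_notMem (by simp), SimpleGraph.card_neighborFinset_eq_degree]
  push_cast; ring

theorem adjF_adj {Δ : ℕ} (h : ∀ v : V, G.degree v ≤ Δ) : Adj ((Δ : ℝ) + 1) (adjF G) where
  one_le := by have : (0 : ℝ) ≤ Δ := Nat.cast_nonneg _; linarith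
  symm x y := by unfold adjF; simp only [G.adj_comm, eq_comm]
  zo x y := by unfold adjF; split_ifs <;> simp
  refl x := by simp [adjF]
  row x := by
    rw [adjF_sum]
    have : (G.degree x : ℝ) ≤ Δ := by exact_mod_cast h x
    linarith

theorem adjF_codeg {Δ : ℕ} {ζ : ℝ} (hζ : 0 ≤ ζ)
    (h : ∀ u v : V, u ≠ v →
      (((Finset.univ.filter (fun w => G.Adj u w ∧ G.Adj v w)).card : ℕ) : ℝ) ≤ ζ * (Δ : ℝ))
    (x y : V) (hxy : x ≠ y) : ∑ z, adjF G x z * adjF G y z ≤ ζ * ((Δ : ℝ) + 1) + 2 := by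
  have h1 : ∑ z, adjF G x z * adjF G y z ≤
      ((Finset.univ.filter (fun w => G.Adj x w ∧ G.Adj y w)).card : ℝ) + 2 := by
    have h2 : ∀ z, adjF G x z * adjF G y z ≤ (if G.Adj x z ∧ G.Adj y z then (1 : ℝ) else 0) +
        ((if z = x then 1 else 0) + (if z = y then 1 else 0)) := by
      intro z
      unfold adjF
      by_cases h3 : z = x
      · subst h3; split_ifs <;> simp_all
      · by_cases h4 : z = y
        · subst h4; split_ifs <;> simp_all
        · have h5 : x ≠ z := fun h => h3 h.symm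
          have h6 : y ≠ z := fun h => h4 h.symm
          simp only [h5, h6, h3, h4, false_or, if_false, add_zero]
          split_ifs <;> simp_all
    refine (Finset.sum_le_sum fun z _ => h2 z).trans ?_
    rw [Finset.sum_add_distrib, Finset.sum_add_distrib]
    simp only [Finset.sum_ite_eq', Finset.mem_univ, if_true]
    rw [Finset.sum_ite, Finset.sum_const_zero, add_zero, Finset.sum_const, nsmul_eq_mul, mul_one]
    norm_num
  have h3 := h x y hxy
  nlinarith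

end

/-- the conjecture for `ζ < 1` -/
theorem vu_lt' (ζ ε : ℝ) (hζ : 0 < ζ) (hζ1 : ζ < 1) (hε : 0 < ε) :
    ∃ Δ₀ : ℕ, ∀ Δ : ℕ, Δ₀ ≤ Δ →
      ∀ (V : Type) [Fintype V] [DecidableEq V] (G : SimpleGraph V) [DecidableRel G.Adj],
        (∀ v : V, G.degree v ≤ Δ) →
        (∀ u v : V, u ≠ v →
          (((Finset.univ.filter (fun w => G.Adj u w ∧ G.Adj v w)).card : ℕ) : ℝ) ≤ ζ * (Δ : ℝ)) →
        (1 / ζ - ε) * ((Fintype.card V : ℝ) / (Δ : ℝ)) ≤ (G.indepNum : ℝ) := by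
  obtain ⟨ε₀, τ, β, κ, ε₃, γ, h1, h2, h3, h4, h5, h6, h7, hdyn⟩ :=
    Pool.Agent.H48.Vu.dynamics ζ (ζ * ε / 2) hζ hζ1 (by positivity)
  obtain ⟨D₀, hker⟩ := kernel_exists ζ ε₀ τ β κ ε₃ γ hζ.le hζ1.le h1 h2 h3 h4 h5 h6 h7
  refine ⟨max ⌈D₀⌉₊ (max 1 ⌈2 / (ζ * ε)⌉₊), fun Δ hΔ V _ _ G _ hdeg hcod => ?_⟩
  have hΔ1 : (1 : ℝ) ≤ Δ := by
    have : 1 ≤ Δ := le_trans (le_trans (le_max_left _ _) (le_max_right _ _)) hΔ
    exact_mod_cast this
  have hΔ2 : D₀ ≤ (Δ : ℝ) + 1 := by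
    have : ⌈D₀⌉₊ ≤ Δ := le_trans (le_max_left _ _) hΔ
    have h8 : D₀ ≤ (⌈D₀⌉₊ : ℝ) := Nat.le_ceil _
    have h9 : (⌈D₀⌉₊ : ℝ) ≤ Δ := by exact_mod_cast this
    linarith
  have hΔ3 : 2 / (ζ * ε) ≤ (Δ : ℝ) := by
    have : ⌈2 / (ζ * ε)⌉₊ ≤ Δ := le_trans (le_trans (le_max_right _ _) (le_max_right _ _)) hΔ
    exact le_trans (Nat.le_ceil _) (by exact_mod_cast this)
  obtain ⟨C, P, E, hK, hk4, hE0, hE1, hE2⟩ :=
    hker V ((Δ : ℝ) + 1) (adjF G) hΔ2 (adjF_adj G hdeg)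
      (fun x y hxy => adjF_codeg G hζ.le hcod x y hxy)
  obtain ⟨I, hI, hIc⟩ := hdyn V ((Δ : ℝ) + 1) (adjF G) C P E hK hk4 hE0 hE1 hE2
  have hindep : G.IsIndepSet (I : Set V) := by
    intro x hx y hy hxy hadj
    have := hI x hx y hy hxy
    simp [adjF, hadj] at this
  have hcard : (I.card : ℝ) ≤ G.indepNum := by
    exact_mod_cast hindep.card_le_indepNum
  refine le_trans ?_ (hIc.trans hcard)
  have hn : (0 : ℝ) ≤ Fintype.card V := Nat.cast_nonneg _
  have hΔ0 : (0 : ℝ) < Δ := by linarith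
  rw [mul_div_assoc', mul_div_assoc', div_le_div_iff₀ hΔ0 (by linarith)]
  have hkey : (1 / ζ - ε) * ((Δ : ℝ) + 1) ≤ (1 - ζ * ε / 2) / ζ * Δ := by
    have e1 : (1 - ζ * ε / 2) / ζ = 1 / ζ - ε / 2 := by field_simp
    rw [e1]
    have e2 : 1 / ζ ≤ ε / 2 * Δ := by
      have h10 : 2 ≤ Δ * (ζ * ε) := by rwa [div_le_iff₀ (by positivity)] at hΔ3
      rw [div_le_iff₀ hζ]
      nlinarith
    nlinarith
  calc (1 / ζ - ε) * (Fintype.card V : ℝ) * ((Δ : ℝ) + 1)
      = (1 / ζ - ε) * ((Δ : ℝ) + 1) * (Fintype.card V : ℝ) := by ring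
    _ ≤ (1 - ζ * ε / 2) / ζ * Δ * (Fintype.card V : ℝ) := mul_le_mul_of_nonneg_right hkey hn
    _ = (1 - ζ * ε / 2) / ζ * (Fintype.card V : ℝ) * Δ := by ring

/-- the greedy bound -/
theorem greedy {V : Type} [Fintype V] [DecidableEq V] (G : SimpleGraph V) [DecidableRel G.Adj]
    {Δ : ℕ} (hdeg : ∀ v : V, G.degree v ≤ Δ) :
    (Fintype.card V : ℝ) ≤ G.indepNum * ((Δ : ℝ) + 1) := by
  obtain ⟨s, hs⟩ := G.exists_isNIndepSet_indepNum
  have hmax : ∀ v, v ∈ s.biUnion (fun x => insert x (G.neighborFinset x)) := by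
    intro v
    by_contra hv
    simp only [Finset.mem_biUnion, Finset.mem_insert, SimpleGraph.mem_neighborFinset, not_exists,
      not_and, not_or] at hv
    have hvs : v ∉ s := fun h => (hv v h).1 rfl
    have h1 : G.IsIndepSet ((insert v s : Finset V) : Set V) := by
      intro x hx y hy hxy
      simp only [Finset.coe_insert, Set.mem_insert_iff, Finset.mem_coe] at hx hy
      rcases hx with rfl | hx <;> rcases hy with rfl | hy
      · exact absurd rfl hxy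
      · intro h; exact (hv y hy).2 h.symm
      · intro h; exact (hv x hx).2 h
      · exact hs.isIndepSet hx hy hxy
    have h2 := h1.card_le_indepNum
    rw [Finset.card_insert_of_notMem hvs, hs.card_eq] at h2
    omega
  have h3 : Fintype.card V ≤ ∑ x ∈ s, (insert x (G.neighborFinset x)).card := by
    rw [← Finset.card_univ]
    refine le_trans (Finset.card_le_card (fun v _ => hmax v)) Finset.card_biUnion_le
  have h4 : ∑ x ∈ s, (insert x (G.neighborFinset x)).card ≤ ∑ x ∈ s, (Δ + 1) := by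
    apply Finset.sum_le_sum
    intro x _
    refine (Finset.card_insert_le _ _).trans ?_
    rw [SimpleGraph.card_neighborFinset_eq_degree]
    exact Nat.add_le_add_right (hdeg x) 1
  rw [Finset.sum_const, smul_eq_mul, hs.card_eq] at h4
  exact_mod_cast h3.trans h4

/-- the conjecture -/
theorem vu_main :
    ∀ ζ : ℝ, 0 < ζ → ∀ ε : ℝ, 0 < ε → ∃ Δ₀ : ℕ, ∀ Δ : ℕ, Δ₀ ≤ Δ →
      ∀ (V : Type) [Fintype V] [DecidableEq V] (G : SimpleGraph V) [DecidableRel G.Adj],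
        (∀ v : V, G.degree v ≤ Δ) →
        (∀ u v : V, u ≠ v →
          (((Finset.univ.filter (fun w => G.Adj u w ∧ G.Adj v w)).card : ℕ) : ℝ) ≤ ζ * (Δ : ℝ)) →
        (1 / ζ - ε) * ((Fintype.card V : ℝ) / (Δ : ℝ)) ≤ (G.indepNum : ℝ) := by
  intro ζ hζ ε hε
  rcases lt_or_ge ζ 1 with h1 | h1
  · exact vu_lt' ζ ε hζ h1 hε
  · refine ⟨max 1 ⌈1 / ε⌉₊, fun Δ hΔ V _ _ G _ hdeg hcod => ?_⟩
    have hΔ1 : (1 : ℝ) ≤ Δ := by
      have : 1 ≤ Δ := le_trans (le_max_left _ _) hΔ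
      exact_mod_cast this
    have hΔ2 : 1 / ε ≤ (Δ : ℝ) := by
      have : ⌈1 / ε⌉₊ ≤ Δ := le_trans (le_max_right _ _) hΔ
      exact le_trans (Nat.le_ceil _) (by exact_mod_cast this)
    have h2 : 1 ≤ Δ * ε := by rwa [div_le_iff₀ hε] at hΔ2
    have h3 := greedy G hdeg
    have hn : (0 : ℝ) ≤ Fintype.card V := Nat.cast_nonneg _
    have hα : (0 : ℝ) ≤ G.indepNum := Nat.cast_nonneg _
    have h4 : 1 / ζ ≤ 1 := by rw [div_le_one hζ]; exact h1
    rw [mul_div_assoc', div_le_iff₀ (by linarith)]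
    have h5 : (1 / ζ - ε) * (Fintype.card V : ℝ) ≤ (1 - ε) * (Fintype.card V : ℝ) :=
      mul_le_mul_of_nonneg_right (by linarith) hn
    rcases le_or_gt 1 ε with h6 | h6
    · have : (1 - ε) * (Fintype.card V : ℝ) ≤ 0 := by nlinarith
      nlinarith [mul_nonneg hα (by linarith : (0 : ℝ) ≤ Δ)]
    · have h7 : (1 - ε) * (Fintype.card V : ℝ) ≤ (1 - ε) * (G.indepNum * ((Δ : ℝ) + 1)) :=
        mul_le_mul_of_nonneg_left h3 (by linarith)
      have h8 : (1 - ε) * ((Δ : ℝ) + 1) ≤ Δ := by nlinarith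
      have h9 : (1 - ε) * (G.indepNum * ((Δ : ℝ) + 1)) ≤ G.indepNum * Δ := by
        nlinarith
      linarith

end Pool.Agent.Helper85.Vu
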